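import Mathlib
import Pool.Agent.Lib.Pf72953z.DefsO
import Pool.Agent.Lib.Pf72953z.DefsP

/-!
The one-sided product formula over a base `P`: `k ⊆ P ⊆ B`, `Y = k(M)` independent of `B`, `G = P·Y`, `Z = B·Y`, `R/Z` finite.  Only the
divisorial valuations which are trivial on `P` are used.
-/

set_option autoImplicit false
set_option linter.style.haveILetI false

open scoped WithZero
open Pf72953 Pf72953.Mov Pf72953.Up Pf72953.Br Pf72953.Osp

namespace Pf72953.Rsp

/-- `w` is trivial on `P` -/
def Tv (P : Type*) {R : Type*} [Field P] [Field R] [Algebra P R] (w : Valuation R ℤᵐ⁰) : Prop :=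
  ∀ p : P, p ≠ 0 → w (algebraMap P R p) = 1

/-- `f (dz)^m` is regular at the divisorial valuations which are trivial on `P` -/
def WRegT (k P : Type*) {K ι : Type*} [Field k] [CharZero k] [Field P] [Field K] [Algebra k K]
    [Algebra P K] [Fintype ι] [DecidableEq ι] (z : ι → K) (m : ℕ) : Set K :=
  {f | ∀ w : Valuation K ℤᵐ⁰, IsDivisorial k K w → Tv P w → ∀ (c : ι → K) (hc : RegBasis k w c),
    w f * w (jac hc.tb z) ^ m ≤ 1}

/-- `GForm`, only the valuations trivial on `P` -/
def GFormT (k P Y R : Type*) {B J ι : Type*} [Field k] [CharZero k] [Field P] [Field Y] [Field R]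
    [Field B] [Algebra k Y] [Algebra k R] [Algebra k B] [Algebra P R] [Algebra Y R] [Algebra B R]
    [Fintype J] [Fintype ι] [DecidableEq ι] {r : J → ℕ} (a : ∀ j, Fin (r j + 1) → B) (x : ι → B)
    (m : ℕ) (q : J → ℕ) : Set B :=
  {h | ∀ w : Valuation R ℤᵐ⁰, IsDivisorial k R w → Tv P w → RG k Y B w → ∀ t : R, IsUnif w t →
    ∀ l : ∀ j, Fin (r j + 1),
      (∀ j l', w (algebraMap B R (a j l')) ≤ w (algebraMap B R (a j (l j)))) →
      ∃ (c : ι → B) (hc : LogBasis k (w.comap (algebraMap B R)) c),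
        w (algebraMap B R h) * (w (algebraMap B R (jac hc.tb x)) *
          ∏ i, w (algebraMap B R (c i))) ^ m ≤ w t ^ m * ∏ j, w (algebraMap B R (a j (l j))) ^ q j}

/-- `c` quotients of such forms, algebraically independent over `P` -/
def GKodT (k P Y R : Type*) {B J : Type*} [Field k] [CharZero k] [Field P] [Field Y] [Field R]
    [Field B] [Algebra k P] [Algebra k Y] [Algebra k R] [Algebra k B] [Algebra P B] [Algebra P R]
    [Algebra Y R] [Algebra B R] [Fintype J] {r : J → ℕ} (a : ∀ j, Fin (r j + 1) → B) (c : ℕ) :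
    Prop :=
  ∃ (p : Fin (dimension k P) → P) (x : Fin (dimension P B) → B) (_ : IsTranscendenceBasis k p)
    (_ : IsTranscendenceBasis P x) (m : ℕ) (_ : 1 ≤ m) (q : J → ℕ) (h : B) (_ : h ≠ 0)
    (_ : h ∈ GFormT k P Y R a (Sum.elim (fun i => algebraMap P B (p i)) x) m q) (f : Fin c → B),
    AlgebraicIndependent P f ∧
      ∀ i, f i * h ∈ GFormT k P Y R a (Sum.elim (fun i => algebraMap P B (p i)) x) m q

end Pf72953.Rsp
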