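import Mathlib
import Pool.Agent.Lib.Pf72953l.Defs
import Pool.Agent.Lib.Pf72953z.RGa
import Pool.Agent.Lib.Pf72953f.Rel
import Pool.Agent.Lib.Pf72953u.Inst

/-!
Forms over `P` and forms over `k` at the valuations trivial on `P`.
-/

set_option autoImplicit false
set_option linter.style.haveILetI false
set_option linter.unusedSectionVars false

open scoped WithZero
open Pf72953 Pf72953.Mov Pf72953.Up Pf72953.Br Pf72953.Osp

namespace Pf72953.Rsp

section res

variable {k P K ιP κ : Type*} [Field k] [Field P] [Field K] [Algebra k P] [Algebra k K]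
  [Algebra P K] [IsScalarTower k P K]

theorem resIndep_base {p : ιP → P} (hp : AlgebraicIndependent k p) {w : Valuation K ℤᵐ⁰}
    {β : κ → K} (hβ : ResIndep P w β) :
    ResIndep k w (Sum.elim β (fun a => algebraMap P K (p a))) := by
  intro q hq
  have h1 : AlgebraicIndependent k (Sum.elim (MvPolynomial.X : κ → MvPolynomial κ P)
      (algebraMap P (MvPolynomial κ P) ∘ p)) :=
    AlgebraicIndependent.sumElim_comp hp (MvPolynomial.algebraicIndependent_X κ P)
  set q' : MvPolynomial κ P := MvPolynomial.aeval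
    (Sum.elim (MvPolynomial.X : κ → MvPolynomial κ P) (algebraMap P (MvPolynomial κ P) ∘ p)) q
    with hq'def
  have hq' : q' ≠ 0 := fun h0 => hq (h1.eq_zero_of_aeval_eq_zero _ h0)
  have h2 := hβ q' hq'
  have h3 : MvPolynomial.aeval β q' =
      MvPolynomial.aeval (Sum.elim β (fun a => algebraMap P K (p a))) q := by
    have h4 := MvPolynomial.comp_aeval_apply
      (Sum.elim (MvPolynomial.X : κ → MvPolynomial κ P) (algebraMap P (MvPolynomial κ P) ∘ p))
      ((MvPolynomial.aeval β : MvPolynomial κ P →ₐ[P] K).restrictScalars k) q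
    rw [AlgHom.restrictScalars_apply] at h4
    rw [hq'def, h4]
    congr 2
    funext i
    rcases i with i | i
    · simp
    · simp
  rw [h3] at h2
  exact h2

theorem adapted_base [Fintype ιP] {p : ιP → P} (hp : AlgebraicIndependent k p)
    {w : Valuation K ℤᵐ⁰} {c : κ → K} {t : K} (h : Adapted P w c t) :
    Adapted k w (Sum.elim (fun a => algebraMap P K (p a)) c) t := by
  classical
  obtain ⟨r, e, x, hx, ht0, ht1, rfl⟩ := h
  let f : Fin r ⊕ ιP ≃ Fin (Fintype.card (Fin r ⊕ ιP)) := Fintype.equivFin _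
  let E1 : ιP ⊕ κ ≃ Option (Fin r ⊕ ιP) :=
    ((Equiv.sumComm ιP κ).trans (Equiv.sumCongr e (Equiv.refl ιP))).trans
      (Fib.CoefsAux.optSum (Fin r) ιP)
  refine ⟨_, E1.trans (Equiv.optionCongr f),
    (Sum.elim x (fun a => algebraMap P K (p a))) ∘ f.symm,
    Fib.CoefsAux.resIndep_reindex (resIndep_base hp hx) f.symm, ht0, ht1, ?_⟩
  funext i
  rcases i with j | i
  · simp [E1, Fib.CoefsAux.optSum]
  · simp only [Sum.elim_inr, Function.comp_apply, E1, Equiv.trans_apply, Equiv.sumComm_apply,
      Sum.swap_inr, Equiv.sumCongr_apply, Sum.map_inl]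
    cases h6 : e i with
    | none => simp [Fib.CoefsAux.optSum]
    | some k => simp [Fib.CoefsAux.optSum]

end res

section conv

variable {k P K ιP κ : Type*} [Field k] [CharZero k] [Field P] [CharZero P] [Field K] [Algebra k P]
  [Algebra k K] [Algebra P K] [IsScalarTower k P K] [Algebra.EssFiniteType k K]
  [Algebra.EssFiniteType P K] [Fintype ιP] [DecidableEq ιP] [Fintype κ] [DecidableEq κ]

theorem exists_adapted_rel {p : ιP → P} (hp : IsTranscendenceBasis k p) {w : Valuation K ℤᵐ⁰}
    (hw : IsDivisorial k K w) (hP : Tv P w) (hκ : Fintype.card κ = dimension P K) :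
    ∃ (c : κ → K) (t : K), IsUnif w t ∧ Adapted P w c t ∧
      Adapted k w (Sum.elim (fun a => algebraMap P K (p a)) c) t := by
  obtain ⟨c, t, ht, hc⟩ := (Mov.IsDivisorial.over hw hP).exists_adapted hκ
  exact ⟨c, t, ht, hc, adapted_base hp.1 hc⟩

theorem card_rel {p : ιP → P} (hp : IsTranscendenceBasis k p) {z : κ → K}
    (hz : IsTranscendenceBasis P z) : Fintype.card (ιP ⊕ κ) = dimension k K :=
  card_eq_of_isTranscendenceBasis (Fib.tb_rel hp hz)

/-- forms over `k`, at the valuations trivial on `P`, are forms over `P` -/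
theorem WRegT.to_rel {p : ιP → P} (hp : IsTranscendenceBasis k p) {z : κ → K}
    (hz : IsTranscendenceBasis P z) {m : ℕ} {g : K}
    (hg : g ∈ WRegT k P (Sum.elim (fun a => algebraMap P K (p a)) z) m) : g ∈ WReg P z m := by
  intro w hw c hc
  have hwk : IsDivisorial k K w := IsDivisorial.under hw
  have hP : Tv P w := hw.const
  have hκ := card_eq_of_isTranscendenceBasis hz
  obtain ⟨c', t, ht, h1, h2⟩ := exists_adapted_rel hp hwk hP hκ
  have hr1 := h1.regBasis hκ ht
  have hr2 := h2.regBasis (card_rel hp hz) ht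
  have h3 := hg w hwk hP _ hr2
  rw [Fib.jac_rel hp hr1.tb hr2.tb p z, jac_self, map_one, one_mul] at h3
  rw [jac_chain hr1.tb hc.tb, map_mul w (jac hc.tb c')]
  have h4 := hc.jac_le c' (fun i => h1.le_one i)
  refine le_trans ?_ h3
  gcongr
  exact mul_le_of_le_one_left' h4

/-- forms over `P` are forms over `k` at the valuations trivial on `P` -/
theorem WRegT.of_rel {p : ιP → P} (hp : IsTranscendenceBasis k p) {z : κ → K}
    (hz : IsTranscendenceBasis P z) {m : ℕ} {g : K} (hg : g ∈ WReg P z m) :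
    g ∈ WRegT k P (Sum.elim (fun a => algebraMap P K (p a)) z) m := by
  intro w hwk hP c hc
  have hw : IsDivisorial P K w := Mov.IsDivisorial.over hwk hP
  have hκ := card_eq_of_isTranscendenceBasis hz
  obtain ⟨c', t, ht, h1, h2⟩ := exists_adapted_rel hp hwk hP hκ
  have hr1 := h1.regBasis hκ ht
  have hr2 := h2.regBasis (card_rel hp hz) ht
  have h3 := hg w hw _ hr1
  rw [jac_chain hr2.tb hc.tb, Fib.jac_rel hp hr1.tb hr2.tb p z, jac_self, map_one, one_mul,
    map_mul w]
  have h4 := hc.jac_le _ (fun i => h2.le_one i)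
  refine le_trans ?_ h3
  gcongr
  exact mul_le_of_le_one_left' h4

end conv

end Pf72953.Rsp
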