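import Mathlib
import Pool.Agent.Lib.Pf72953l.Conv
import Pool.Agent.Lib.Pf72953k.Bad
import Pool.Agent.Lib.Pf72953f.Res

/-!
`k ⊆ P ⊆ B`, `Y` independent of `B`, `G = P·Y`, `Z = B·Y`.
-/

set_option autoImplicit false
set_option linter.style.haveILetI false
set_option linter.unusedSectionVars false

open scoped WithZero
open Pf72953 Pf72953.Mov Pf72953.Up Pf72953.Br Pf72953.Osp

namespace Pf72953.Rsp

variable {k P G B Y Z R : Type*} [Field k] [CharZero k] [Field P] [Field G] [Field B] [Field Y]
  [Field Z] [Field R] [Algebra k P] [Algebra k G] [Algebra k B] [Algebra k Y] [Algebra k Z]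
  [Algebra k R] [Algebra P G] [Algebra P B] [Algebra P Z] [Algebra P R] [Algebra Y G] [Algebra G Z]
  [Algebra G R] [Algebra B Z] [Algebra B R] [Algebra Y Z] [Algebra Y R] [Algebra Z R]
  [IsScalarTower k P G] [IsScalarTower k P B] [IsScalarTower k P Z] [IsScalarTower k P R]
  [IsScalarTower k G Z] [IsScalarTower k G R] [IsScalarTower k Y G] [IsScalarTower P G Z]
  [IsScalarTower P G R] [IsScalarTower P B Z] [IsScalarTower P B R] [IsScalarTower P Z R]
  [IsScalarTower Y G Z] [IsScalarTower Y G R] [IsScalarTower G Z R] [IsScalarTower k B Z]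
  [IsScalarTower k B R] [IsScalarTower k Y Z] [IsScalarTower k Y R] [IsScalarTower k Z R]
  [IsScalarTower B Z R] [IsScalarTower Y Z R] [Algebra.EssFiniteType k B]
  [Algebra.EssFiniteType k Y] [Algebra.EssFiniteType k Z]

omit [CharZero k] in
theorem comp_P (hcomp : Twr.IsCompositum k B Y Z) : Twr.IsCompositum P B G Z := by
  intro z
  have h1 : IntermediateField.adjoin k (Set.range (algebraMap B Z) ∪ Set.range (algebraMap Y Z)) ≤
      (IntermediateField.adjoin P (Set.range (algebraMap B Z) ∪
        Set.range (algebraMap G Z))).restrictScalars k := by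
    rw [IntermediateField.adjoin_le_iff]
    rintro _ (⟨b, rfl⟩ | ⟨y, rfl⟩)
    · exact IntermediateField.subset_adjoin P _ (Or.inl ⟨b, rfl⟩)
    · refine IntermediateField.subset_adjoin P _ (Or.inr ⟨algebraMap Y G y, ?_⟩)
      exact (IsScalarTower.algebraMap_apply Y G Z y).symm
  exact h1 (hcomp z)

omit [CharZero k] in
theorem dim_P (hdim : dimension k B + dimension k Y = dimension k Z)
    (hdimG : dimension k P + dimension k Y = dimension k G) :
    dimension P G + dimension P B = dimension P Z := by
  have h1 := Fib.ResAux.dim_add k P B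
  have h2 := Fib.ResAux.dim_add k P Z
  haveI : Algebra.EssFiniteType k G := Red.essFiniteType_sub k G Z
  have h3 := Fib.ResAux.dim_add k P G
  omega

/-- a transcendence basis of `B/P` is one of `Z/G` -/
theorem tb_G (hcomp : Twr.IsCompositum k B Y Z)
    (hdim : dimension k B + dimension k Y = dimension k Z)
    (hdimG : dimension k P + dimension k Y = dimension k G) {ι : Type*} [Fintype ι] {x : ι → B}
    (hx : IsTranscendenceBasis P x) : IsTranscendenceBasis G (fun i => algebraMap B Z (x i)) := by
  haveI : CharZero P := charZero_of_injective_algebraMap (algebraMap k P).injective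
  haveI : Algebra.EssFiniteType k G := Red.essFiniteType_sub k G Z
  haveI : Algebra.EssFiniteType P Z := Algebra.EssFiniteType.of_comp k P Z
  haveI : Algebra.EssFiniteType P B := Algebra.EssFiniteType.of_comp k P B
  haveI : Algebra.EssFiniteType P G := Algebra.EssFiniteType.of_comp k P G
  refine Up.tb_over (k := P) (κ := G) (Y := B) (L := Z) ?_
    (PF.alg_of_compositum (PF.IsCompositum.symm (comp_P (P := P) (G := G) hcomp))) hx
  exact dim_P hdim hdimG

theorem tb_GR (hcomp : Twr.IsCompositum k B Y Z)
    (hdim : dimension k B + dimension k Y = dimension k Z)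
    (hdimG : dimension k P + dimension k Y = dimension k G) [FiniteDimensional Z R] {ι : Type*}
    [Fintype ι] {x : ι → B} (hx : IsTranscendenceBasis P x) :
    IsTranscendenceBasis G (fun i => algebraMap B R (x i)) := by
  have h1 := (tb_G (Z := Z) hcomp hdim hdimG hx).algebraMap_comp (A := R)
  convert h1 using 1
  funext i
  simp [← IsScalarTower.algebraMap_apply B Z R]

end Pf72953.Rsp
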