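import Mathlib
import Pool.Agent.Lib.Pf72953l.Defs
import Pool.Agent.Lib.Pf72953z.LowE
import Pool.Agent.Lib.Pf72953k.Main

/-!
The main estimate for the one-sided product formula over a base.
-/

set_option autoImplicit false
set_option linter.style.haveILetI false
set_option linter.unusedSectionVars false

open scoped WithZero
open Pf72953 Pf72953.Mov Pf72953.Up Pf72953.Osp

namespace Pf72953.Rsp

section main

variable {k P B Y Z Q J ι : Type*} [Field k] [CharZero k] [IsAlgClosed k] [Field P] [Field B]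
  [Field Y] [Field Z] [Field Q] [Algebra k B] [Algebra k Y] [Algebra k Z] [Algebra k Q]
  [Algebra P B] [Algebra P Q] [Algebra B Z] [Algebra B Q] [Algebra Y Z] [Algebra Y Q] [Algebra Z Q] [IsScalarTower k B Z]
  [IsScalarTower k B Q] [IsScalarTower k Y Z] [IsScalarTower k Y Q] [IsScalarTower k Z Q]
  [IsScalarTower B Z Q] [IsScalarTower Y Z Q] [IsScalarTower P B Q] [Algebra.EssFiniteType k B]
  [Algebra.EssFiniteType k Y] [Algebra.EssFiniteType k Z] [FiniteDimensional Z Q]
  [Fintype J] [Fintype ι] [DecidableEq ι] {M : SmoothModel k Y}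

omit [Fintype J] in
/-- the bound for `h` at a valuation over a Gauss one -/
theorem bound_overT [Algebra.EssFiniteType k Q] (hcomp : Twr.IsCompositum k B Y Z)
    (hdim : dimension k B + dimension k Y = dimension k Z) [Fintype J] (D : J → WDiv M B)
    {m : ℕ} {q : J → ℕ} {x : ι → B}
    {h : B} (hh : h ∈ GFormT k P Y Q (fun j => (D j).a) x m q)
    {w : Valuation Q ℤᵐ⁰} (hwP : Tv P w) (hu : IsDivisorial k B (w.comap (algebraMap B Q)))
    {cB : ι → B} (hcB : LogBasis k (w.comap (algebraMap B Q)) cB) {tB : B}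
    (htB : IsUnif (w.comap (algebraMap B Q)) tB) {l₀ : ∀ j, Fin ((D j).r + 1)}
    (hl₀ : ∀ j l, w (algebraMap B Q ((D j).a l)) ≤ w (algebraMap B Q ((D j).a (l₀ j)))) :
    (w (algebraMap B Q h) * (w (algebraMap B Q (jac hcB.tb x)) *
        ∏ i, w (algebraMap B Q (cB i))) ^ m) ^ Module.finrank Z Q ≤
      w (algebraMap B Q tB) ^ m *
        (∏ j, w (algebraMap B Q ((D j).a (l₀ j))) ^ q j) ^ Module.finrank Z Q := by
  classical
  obtain ⟨w₀, hw₀, hRG, heq, hunif⟩ := RG.exists (R := Q) (Z := Z) hcomp hdim hu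
  set ν := Module.finrank Z Q with hν
  obtain ⟨t₀, ht₀⟩ := exists_unif w₀ hw₀.nontrivial
  have hle : ∀ a b : B, w₀ (algebraMap B Q a) ≤ w₀ (algebraMap B Q b) ↔
      w (algebraMap B Q a) ≤ w (algebraMap B Q b) := by
    intro a b
    rcases eq_or_ne b 0 with rfl | hb
    · simp only [map_zero, le_zero_iff, map_eq_zero]
    · have h1 := heq (a / b)
      have hb' : algebraMap B Q b ≠ 0 := by rwa [Ne, map_eq_zero]
      rw [Valuation.comap_apply, map_div₀, map_div₀, map_div₀,
        div_le_one₀ (zero_lt_iff.mpr ((Valuation.ne_zero_iff _).mpr hb')),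
        div_le_one₀ (zero_lt_iff.mpr ((Valuation.ne_zero_iff _).mpr hb'))] at h1
      exact h1
  have hw₀P : Tv P w₀ := by
    have hle1 : ∀ a : B, w₀ (algebraMap B Q a) ≤ 1 ↔ w (algebraMap B Q a) ≤ 1 := heq
    have h1 : ∀ a : B, w (algebraMap B Q a) = 1 → w₀ (algebraMap B Q a) = 1 := by
      intro a ha
      have e1 := (hle a 1).2 (by rw [map_one, map_one]; exact ha.le)
      have e2 := (hle 1 a).2 (by rw [map_one, map_one]; exact ha.ge)
      rw [map_one, map_one] at e1 e2
      exact le_antisymm e1 e2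
    intro p hp
    rw [IsScalarTower.algebraMap_apply P B Q]
    refine h1 _ ?_
    rw [← IsScalarTower.algebraMap_apply P B Q]
    exact hwP p hp
  obtain ⟨c₁, hc₁, hb₁⟩ := hh w₀ hw₀ hw₀P hRG t₀ ht₀ l₀ (fun j l' => (hle _ _).mpr (hl₀ j l'))
  have hc₁' : LogBasis k (w.comap (algebraMap B Q)) c₁ := ⟨hc₁.tb, fun i a => by
    have h1 := hc₁.der i a
    rw [Valuation.comap_apply, Valuation.comap_apply] at h1 ⊢
    exact (hle _ _).mp h1⟩
  have hvol := hcB.vol_eq hc₁' x
  simp only [Valuation.comap_apply] at hvol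
  rw [hvol]
  have h2 : w₀ t₀ ^ ν ≤ w₀ (algebraMap B Q tB) := hunif t₀ tB ht₀ htB
  have h3 : w₀ (algebraMap B Q ((h * (jac hc₁.tb x * ∏ i, c₁ i) ^ m) ^ ν)) ≤
      w₀ (algebraMap B Q (tB ^ m * (∏ j, (D j).a (l₀ j) ^ q j) ^ ν)) := by
    simp only [map_pow, map_mul, map_prod]
    calc _ ≤ (w₀ t₀ ^ m * ∏ j, w₀ (algebraMap B Q ((D j).a (l₀ j))) ^ q j) ^ ν := by
          gcongr
      _ = (w₀ t₀ ^ ν) ^ m * (∏ j, w₀ (algebraMap B Q ((D j).a (l₀ j))) ^ q j) ^ ν := by
          rw [mul_pow, ← pow_mul, ← pow_mul, mul_comm m ν]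
      _ ≤ _ := by gcongr
  have h4 := (hle _ _).mp h3
  simp only [map_pow, map_mul, map_prod] at h4
  exact h4

/-- **The main estimate.** -/
theorem mem_ospT (hcomp : Twr.IsCompositum k B Y Z)
    (hdim : dimension k B + dimension k Y = dimension k Z) (D : J → WDiv M B)
    (hram : ∀ j, ((D j).toMov Q).Ramified) {C : J → ℕ} (hC : ∀ j, Cert ((D j).toMov Q) (C j))
    {m : ℕ} {q : J → ℕ} (hq : max 2 (Module.finrank Z Q) * ∑ j, C j * q j ≤ m)
    {x : ι → B} (hx : IsTranscendenceBasis k x)
    {y : Fin (dimension k Y) → Y} (_hy : IsTranscendenceBasis k y)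
    {h : B} (hh : h ∈ GFormT k P Y Q (fun j => (D j).a) x m q) {g : Y}
    (hg : g ∈ CoefSec M (fun j => (D j).S) y m q) :
    algebraMap B Q h * algebraMap Y Q g * ∏ j, 1 / (D j).sec Q ^ q j ∈
      WRegT k P (Sum.elim (fun i => algebraMap B Q (x i)) (fun j => algebraMap Y Q (y j))) m := by
  classical
  haveI : Algebra.EssFiniteType k Q := Algebra.EssFiniteType.comp k Z Q
  intro w hwL hwP c₀ hc₀
  have hcardB : Fintype.card ι = dimension k B := card_eq_of_isTranscendenceBasis hx
  have hBY : ∀ {x : ι → B} {y : Fin (dimension k Y) → Y},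
      IsTranscendenceBasis k x → IsTranscendenceBasis k y → IsTranscendenceBasis k
        (Sum.elim (fun i => algebraMap B Q (x i)) (fun j => algebraMap Y Q (y j))) :=
    fun hx hy => tb_Q (Z := Z) hcomp hdim hx hy
  have hcardL : Fintype.card (ι ⊕ Fin (dimension k Y)) = dimension k Q :=
    card_eq_of_isTranscendenceBasis hc₀.tb
  obtain ⟨c, t, ht, hcL⟩ := hwL.exists_adapted hcardL
  have htb : IsTranscendenceBasis k c := isTranscendenceBasis_of_card hcardL hcL.algebraicIndependent
  suffices hmain : w (algebraMap B Q h * algebraMap Y Q g * ∏ j, 1 / (D j).sec Q ^ q j) *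
      w (jac htb (Sum.elim (fun i => algebraMap B Q (x i)) (fun j => algebraMap Y Q (y j)))) ^ m
        ≤ 1 by
    rw [jac_chain htb hc₀.tb, map_mul w (jac hc₀.tb c)]
    have h1 := hc₀.jac_le c (fun i => hcL.le_one i)
    refine le_trans ?_ hmain
    gcongr
    exact mul_le_of_le_one_left' h1
  have hwt : w t ≠ 0 := (Valuation.ne_zero_iff _).mpr ht.ne_zero
  have hwtpos : 0 < w t := zero_lt_iff.mpr hwt
  have hlog := hcL.logBasis hcardL
  -- the chart
  obtain ⟨i, hi⟩ := M.cover (w.comap (algebraMap Y Q)) (fun κ hκ => by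
    rw [Valuation.comap_apply, ← IsScalarTower.algebraMap_apply k Y Q]
    exact hwL.const κ hκ)
  have hA : ∀ f ∈ M.A i, w (algebraMap Y Q f) ≤ 1 := hi
  haveI : Nonempty M.I := ⟨i⟩
  have hsec0 : ∀ j, (D j).sec Q ≠ 0 := fun j => sec_ne_zero ((D j).toMov Q) hBY hx
  have hwsec : ∀ j, w ((D j).sec Q) ≠ 0 := fun j => (Valuation.ne_zero_iff w).mpr (hsec0 j)
  -- the maximal coefficients
  have hmax : ∀ j, ∃ l₀, ∀ l, w (algebraMap B Q ((D j).a l)) ≤ w (algebraMap B Q ((D j).a l₀)) :=
    fun j => by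
    obtain ⟨l₀, -, hl₀⟩ := Finset.exists_max_image Finset.univ
      (fun l => w (algebraMap B Q ((D j).a l))) Finset.univ_nonempty
    exact ⟨l₀, fun l => hl₀ l (Finset.mem_univ l)⟩
  choose l₀ hl₀ using hmax
  have hane : ∀ j l, (D j).a l ≠ 0 := fun j l => (D j).a_indep.ne_zero l
  have hal₀ : ∀ j, w (algebraMap B Q ((D j).a (l₀ j))) ≠ 0 := fun j => by
    rw [Valuation.ne_zero_iff, Ne, map_eq_zero]
    exact hane j _
  set AA : ℤᵐ⁰ := ∏ j, w (algebraMap B Q ((D j).a (l₀ j))) ^ q j with hAA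
  have hAA0 : AA ≠ 0 := Finset.prod_ne_zero_iff.mpr fun j _ => pow_ne_zero _ (hal₀ j)
  obtain ⟨f, hf, hgf⟩ := hg i
  have hwf := hA f hf
  have hgf' : w (algebraMap Y Q g) * w (algebraMap Y Q (jac (M.tb i) y)) ^ m ≤
      ∏ j, w (algebraMap Y Q ((D j).S.gen i)) ^ q j := by
    rw [← map_pow, ← map_pow, ← map_mul, ← map_mul, hgf, map_mul, map_mul, map_prod, map_prod]
    simp only [map_pow]
    exact mul_le_of_le_one_left' hwf
  have hchain : ∀ {cB : ι → B} (hcB : IsTranscendenceBasis k cB),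
      jac htb (Sum.elim (fun i => algebraMap B Q (x i)) (fun j => algebraMap Y Q (y j))) =
        jac htb (zfam M i cB) * (algebraMap B Q (jac hcB x) * algebraMap Y Q (jac (M.tb i) y)) := by
    intro cB hcB
    have hz : IsTranscendenceBasis k (zfam (L := Q) M i cB) := hBY hcB (M.tb i)
    rw [jac_chain hz htb]
    congr 1
    exact jac_sum hcB (M.tb i) hz x y
  -- the logarithmic step
  have key : ∀ {cB : ι → B} (hcB : IsTranscendenceBasis k cB) {α : ℤᵐ⁰},
      w (algebraMap B Q h) * (w (algebraMap B Q (jac hcB x)) *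
        ∏ j, w (algebraMap B Q (cB j))) ^ m ≤ AA * α →
      α * relvol M i cB hlog ^ (m - ∑ j, C j * q j) ≤ w t ^ m →
      w (algebraMap B Q h * algebraMap Y Q g * ∏ j, 1 / (D j).sec Q ^ q j) *
        w (jac htb (Sum.elim (fun i => algebraMap B Q (x i)) (fun j => algebraMap Y Q (y j)))) ^ m
        ≤ 1 := by
    intro cB hcB α h1 h2
    have hz : IsTranscendenceBasis k (zfam (L := Q) M i cB) := hBY hcB (M.tb i)
    set μ := relvol M i cB hlog with hμ
    set P := ∏ j, w (algebraMap B Q (cB j)) with hP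
    have hP0 : P ≠ 0 := prod_cB_ne_zero hcB w
    have hsec : ∀ j, w (1 / (D j).sec Q ^ q j) * w (algebraMap B Q ((D j).a (l₀ j))) ^ q j *
        μ ^ (C j * q j) * w (algebraMap Y Q ((D j).S.gen i)) ^ q j ≤ 1 := by
      intro j
      have h3 : μ ^ C j * (w (algebraMap B Q ((D j).a (l₀ j))) *
          w (algebraMap Y Q ((D j).S.gen i))) ≤ w ((D j).sec Q) :=
        sec_bound ((D j).toMov Q) (hC j) hcB hz hA hlog (l₀ := l₀ j) (hl₀ j)
      have h5 : 0 < w ((D j).sec Q) ^ q j := pow_pos (zero_lt_iff.mpr (hwsec j)) _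
      rw [map_div₀, map_one, map_pow, div_mul_eq_mul_div, div_mul_eq_mul_div, div_mul_eq_mul_div,
        div_le_one₀ h5, one_mul]
      calc _ = (μ ^ C j * (w (algebraMap B Q ((D j).a (l₀ j))) *
            w (algebraMap Y Q ((D j).S.gen i)))) ^ q j := by
            rw [mul_pow, mul_pow, pow_mul]
            simp only [mul_comm, mul_assoc]
        _ ≤ w ((D j).sec Q) ^ q j := pow_le_pow_left' h3 _
    have hle : ∑ j, C j * q j ≤ m := by
      refine le_trans (Nat.le_mul_of_pos_left _ ?_) hq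
      omega
    have hμm : μ ^ m = μ ^ (m - ∑ j, C j * q j) * ∏ j, μ ^ (C j * q j) := by
      rw [Finset.prod_pow_eq_pow_sum, ← pow_add]
      congr 1
      omega
    have hvol : w (jac htb (zfam M i cB)) * w t = μ * P := by
      rw [hμ, relvol, hcL.prod, mul_assoc, mul_assoc, inv_mul_cancel₀ hP0, mul_one]
    have hpos : 0 < w t ^ m := pow_pos hwtpos m
    refine le_of_mul_le_mul_right (a := w t ^ m) ?_ hpos
    rw [one_mul, hchain hcB]
    calc _ = w (algebraMap B Q h) * w (algebraMap Y Q g) * (∏ j, w (1 / (D j).sec Q ^ q j)) *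
          ((w (jac htb (zfam M i cB)) * w t) *
            (w (algebraMap B Q (jac hcB x)) * w (algebraMap Y Q (jac (M.tb i) y)))) ^ m := by
          rw [map_mul, map_mul, map_prod, map_mul, map_mul]
          simp only [mul_pow, mul_comm, mul_left_comm, mul_assoc]
      _ = (w (algebraMap B Q h) * (w (algebraMap B Q (jac hcB x)) * P) ^ m) *
          (w (algebraMap Y Q g) * w (algebraMap Y Q (jac (M.tb i) y)) ^ m) *
          ((∏ j, w (1 / (D j).sec Q ^ q j)) * ∏ j, μ ^ (C j * q j)) *
          μ ^ (m - ∑ j, C j * q j) := by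
          rw [hvol, mul_pow, mul_pow, mul_pow, mul_pow, hμm]
          simp only [mul_comm, mul_left_comm, mul_assoc]
      _ ≤ (AA * α) * (∏ j, w (algebraMap Y Q ((D j).S.gen i)) ^ q j) *
          ((∏ j, w (1 / (D j).sec Q ^ q j)) * ∏ j, μ ^ (C j * q j)) *
          μ ^ (m - ∑ j, C j * q j) := by gcongr
      _ = (∏ j, w (1 / (D j).sec Q ^ q j) * w (algebraMap B Q ((D j).a (l₀ j))) ^ q j *
          μ ^ (C j * q j) *
          w (algebraMap Y Q ((D j).S.gen i)) ^ q j) * (α * μ ^ (m - ∑ j, C j * q j)) := by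
          rw [hAA, Finset.prod_mul_distrib, Finset.prod_mul_distrib, Finset.prod_mul_distrib]
          simp only [mul_comm, mul_left_comm, mul_assoc]
      _ ≤ 1 * (w t ^ m) := by
          gcongr
          exact Finset.prod_le_one' fun j _ => hsec j
      _ = _ := one_mul _
  by_cases hnt : ∃ a : B, a ≠ 0 ∧ w (algebraMap B Q a) ≠ 1
  · -- `w` nontrivial on `B`
    have hu : IsDivisorial k B (w.comap (algebraMap B Q)) := hwL.restrict hnt
    obtain ⟨cB, tB, htB, hcB⟩ := hu.exists_adapted hcardB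
    have hcBlog := hcB.logBasis hcardB
    have hz : IsTranscendenceBasis k (zfam (L := Q) M i cB) := hBY hcBlog.tb (M.tb i)
    by_cases hμ : relvol M i cB hlog < 1
    · -- not Gauss
      have hμt : relvol M i cB hlog ≤ w t := by
        have h1 : relvol M i cB hlog = w (jac hlog.tb (zfam M i cB) * (∏ j, c j) *
            (∏ j, algebraMap B Q (cB j))⁻¹) := by
          rw [relvol, map_mul, map_mul, map_inv₀, map_prod, map_prod]
        rw [h1] at hμ ⊢
        exact ht.le _ hμ
      have hV := bound_overT hcomp hdim D hh hwP hu hcBlog htB hl₀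
      have htBle : w (algebraMap B Q tB) ≤ w t := ht.le _ htB.lt_one
      set V : ℤᵐ⁰ := w (algebraMap B Q h) * (w (algebraMap B Q (jac hcBlog.tb x)) *
        ∏ i, w (algebraMap B Q (cB i))) ^ m with hVdef
      set ν := Module.finrank Z Q with hν
      have hν1 : 1 ≤ ν := Module.finrank_pos
      refine key hcBlog.tb (α := V * AA⁻¹) ?_ ?_
      · rw [mul_comm AA, mul_assoc, inv_mul_cancel₀ hAA0, mul_one]
      · have hα : (V * AA⁻¹) ^ ν ≤ w t ^ m := by
          rw [mul_pow]
          calc V ^ ν * AA⁻¹ ^ ν ≤ (w (algebraMap B Q tB) ^ m * AA ^ ν) * AA⁻¹ ^ ν := by gcongr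
            _ = w (algebraMap B Q tB) ^ m := by
              rw [mul_assoc, ← mul_pow, mul_inv_cancel₀ hAA0, one_pow, mul_one]
            _ ≤ w t ^ m := by gcongr
        have hs : m * ν ≤ m + (m - ∑ j, C j * q j) * ν := by
          have h1 : ν * ∑ j, C j * q j ≤ m :=
            le_trans (Nat.mul_le_mul_right _ (le_max_right 2 ν)) hq
          have h2 : ∑ j, C j * q j ≤ m := le_trans (Nat.le_mul_of_pos_left _ hν1) h1
          obtain ⟨e, he⟩ := Nat.exists_eq_add_of_le h2
          rw [he, Nat.add_sub_cancel_left]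
          rw [he] at h1
          nlinarith
        have h5 : (V * AA⁻¹ * relvol M i cB hlog ^ (m - ∑ j, C j * q j)) ^ ν ≤ (w t ^ m) ^ ν := by
          rw [mul_pow, ← pow_mul, ← pow_mul]
          calc _ ≤ w t ^ m * w t ^ ((m - ∑ j, C j * q j) * ν) := by gcongr
            _ = w t ^ (m + (m - ∑ j, C j * q j) * ν) := by rw [pow_add]
            _ ≤ _ := pow_le_pow_right_of_le_one' ht.lt_one.le hs
        exact le_of_pow_le_pow_left₀ (by omega) zero_le h5
    · -- Gauss
      have hRG : RG k Y B w := (Fac.isGauss_of_relvol hcBlog.tb hz hA hlog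
        (le_antisymm (relvol_le_one hcBlog.tb hA hlog) (not_lt.mp hμ))).rg
      obtain ⟨c₁, hc₁, hb₁⟩ := hh w hwL hwP hRG t ht l₀ hl₀
      have hvol := hcBlog.vol_eq hc₁ x
      simp only [Valuation.comap_apply] at hvol
      refine key hcBlog.tb (α := w t ^ m) ?_ ?_
      · rw [hvol, mul_comm AA]
        exact hb₁
      · exact mul_le_of_le_one_right' (pow_le_one' (relvol_le_one hcBlog.tb hA hlog) _)
  · -- `w` trivial on `B`
    push Not at hnt
    have hreg := hcL.regBasis hcardL ht
    have hone : ∀ a : B, w (algebraMap B Q a) ≤ 1 := by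
      intro a
      rcases eq_or_ne a 0 with rfl | ha
      · simp
      · exact (hnt a ha).le
    have hAA1 : AA = 1 := by
      rw [hAA]
      exact Finset.prod_eq_one fun j _ => by rw [hnt _ (hane j _), one_pow]
    have hPone : ∏ j, w (algebraMap B Q (x j)) = 1 :=
      Finset.prod_eq_one fun j _ => hnt _ (hx.1.ne_zero j)
    have hzle : w (jac htb (zfam M i x)) ≤ 1 := hreg.jac_le _ (by
      rintro (j | a)
      · exact hone _
      · exact hA _ (M.mem i a))
    by_cases hlt : ∃ j, w ((D j).sec Q) < w (algebraMap Y Q ((D j).S.gen i))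
    · -- on one of the divisors
      obtain ⟨j, hj⟩ := hlt
      have h1 : w (jac htb (zfam M i x)) < 1 := by
        have hz : IsTranscendenceBasis k (zfam (L := Q) M i x) := hBY hx (M.tb i)
        exact jac_lt_one hx (ξ := fun a => algebraMap Y Q (M.x i a)) hz hwL hnt
          (fun d hd => hram j w hwL hnt i hA hj d hd) hreg
      have h2 := ht.le _ h1
      have h3 : relvol M i x hlog ≤ w t ^ 2 := by
        rw [relvol, hPone, inv_one, mul_one, hcL.prod, pow_two]
        gcongr
      have h4 : 2 * ∑ j, C j * q j ≤ m :=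
        le_trans (Nat.mul_le_mul_right _ (le_max_left 2 _)) hq
      refine key hx (α := 1) ?_ ?_
      · rw [jac_self, map_one, map_one, one_mul, hPone, one_pow, mul_one, hAA1, mul_one]
        exact hone h
      · rw [one_mul]
        calc _ ≤ (w t ^ 2) ^ (m - ∑ j, C j * q j) := by gcongr
          _ = w t ^ (2 * (m - ∑ j, C j * q j)) := by rw [← pow_mul]
          _ ≤ w t ^ m :=
            pow_le_pow_right_of_le_one' ht.lt_one.le (by omega)
    · -- off the divisors
      push Not at hlt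
      have hsec : ∀ j, w (1 / (D j).sec Q ^ q j) *
          w (algebraMap Y Q ((D j).S.gen i)) ^ q j ≤ 1 := by
        intro j
        have h5 : 0 < w ((D j).sec Q) ^ q j := pow_pos (zero_lt_iff.mpr (hwsec j)) _
        rw [map_div₀, map_one, map_pow, div_mul_eq_mul_div, div_le_one₀ h5, one_mul]
        exact pow_le_pow_left' (hlt j) _
      rw [hchain hx]
      calc _ = w (algebraMap B Q h) * w (algebraMap Y Q g) * (∏ j, w (1 / (D j).sec Q ^ q j)) *
            (w (jac htb (zfam M i x)) * w (algebraMap Y Q (jac (M.tb i) y))) ^ m := by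
            rw [jac_self, map_one, one_mul, map_mul, map_mul, map_prod, map_mul]
        _ = w (algebraMap B Q h) * w (jac htb (zfam M i x)) ^ m *
            (w (algebraMap Y Q g) * w (algebraMap Y Q (jac (M.tb i) y)) ^ m) *
            ∏ j, w (1 / (D j).sec Q ^ q j) := by
            rw [mul_pow]
            simp only [mul_comm, mul_left_comm, mul_assoc]
        _ ≤ 1 * 1 * (∏ j, w (algebraMap Y Q ((D j).S.gen i)) ^ q j) *
            ∏ j, w (1 / (D j).sec Q ^ q j) := by
            gcongr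
            · exact hone h
            · exact pow_le_one' hzle m
        _ = ∏ j, w (1 / (D j).sec Q ^ q j) * w (algebraMap Y Q ((D j).S.gen i)) ^ q j := by
            rw [one_mul, one_mul, Finset.prod_mul_distrib, mul_comm]
        _ ≤ 1 := Finset.prod_le_one' fun j _ => hsec j

end main

end Pf72953.Rsp
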