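import Mathlib
import Pool.Agent.Lib.Pf72953l.LowA
import Pool.Agent.Lib.Pf72953l.LowE
import Pool.Agent.Lib.Pf72953l.Conv
import Pool.Agent.Lib.Pf72953b.PosKod
import Pool.Agent.Lib.Pf72953k.Main

/-!
The one-sided product formula over a base: the lower bound.
-/

set_option autoImplicit false
set_option linter.style.haveILetI false
set_option linter.unusedSectionVars false

open scoped WithZero
open Pf72953 Pf72953.Mov Pf72953.Up Pf72953.Br Pf72953.Osp

namespace Pf72953.Rsp

section reindex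

variable {k P K ι κ : Type*} [Field k] [CharZero k] [Field P] [Field K] [Algebra k K] [Algebra P K]
  [Fintype ι] [DecidableEq ι] [Fintype κ] [DecidableEq κ]

theorem WRegT.reindex {z : ι → K} {m : ℕ} {f : K} (hf : f ∈ WRegT k P z m) (e : κ ≃ ι) :
    f ∈ WRegT k P (z ∘ e) m := by
  intro w hw hP c hc
  have hc' : RegBasis k w (c ∘ e.symm) := hc.reindex e.symm
  have h1 := hf w hw hP _ hc'
  have h2 := jac_reindex e.symm hc.tb hc'.tb (z ∘ e)
  have h3 : (z ∘ e) ∘ e.symm = z := by funext i; simp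
  rw [h3] at h2
  rwa [h2] at h1

end reindex

section ofW

variable {k P B Y R J ιP κ : Type*} [Field k] [CharZero k] [Field P] [CharZero P] [Field B] [Field Y]
  [Field R] [Algebra k P] [Algebra k B] [Algebra k Y] [Algebra k R] [Algebra P B] [Algebra P R]
  [Algebra B R] [Algebra Y R] [IsScalarTower k P B] [IsScalarTower P B R] [IsScalarTower k B R]
  [Algebra.EssFiniteType k B] [Algebra.EssFiniteType P B] [Algebra.EssFiniteType k R]
  [Fintype J] [Fintype ιP] [DecidableEq ιP] [Fintype κ] [DecidableEq κ] {r : J → ℕ}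
  {a : ∀ j, Fin (r j + 1) → B}

theorem GFormT.of_WReg {p : ιP → P} (hp : IsTranscendenceBasis k p) {x : κ → B}
    (hx : IsTranscendenceBasis P x) {m : ℕ} {h : B} (hh : h ∈ WReg P x m)
    (hnt : ∀ w : Valuation R ℤᵐ⁰, IsDivisorial k R w → RG k Y B w →
      ∃ b : B, b ≠ 0 ∧ w (algebraMap B R b) ≠ 1) :
    h ∈ GFormT k P Y R a (Sum.elim (fun i => algebraMap P B (p i)) x) m (fun _ => 0) := by
  intro w hw hP hrg t ht l hl
  have hu : IsDivisorial k B (w.comap (algebraMap B R)) := hw.restrict (hnt w hw hrg)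
  have hPu : Tv P (w.comap (algebraMap B R)) := by
    intro q hq
    rw [Valuation.comap_apply, ← IsScalarTower.algebraMap_apply P B R]
    exact hP q hq
  have hκ := card_eq_of_isTranscendenceBasis hx
  obtain ⟨c, tB, htB, h1, h2⟩ := exists_adapted_rel hp hu hPu hκ
  have hr1 := h1.regBasis hκ htB
  have hlog := h2.logBasis (card_rel hp hx)
  refine ⟨_, hlog, ?_⟩
  have h3 := hh _ (Mov.IsDivisorial.over hu hPu) _ hr1
  rw [Fib.jac_rel hp hr1.tb hlog.tb p x, jac_self, map_one, one_mul]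
  have h4 := h2.prod
  simp only [Valuation.comap_apply] at h3 h4
  rw [h4, mul_pow, ← mul_assoc]
  simp only [pow_zero, Finset.prod_const_one, mul_one]
  have h5 : w (algebraMap B R tB) ≤ w t := ht.le _ htB.lt_one
  calc _ ≤ 1 * w t ^ m := by gcongr
    _ = _ := one_mul _

end ofW

section OC

variable {k P B Y Z Q J : Type*} [Field k] [CharZero k] [IsAlgClosed k] [Field P] [Field B]
  [Field Y] [Field Z] [Field Q] [Algebra k P] [Algebra k B] [Algebra k Y] [Algebra k Z]
  [Algebra k Q] [Algebra P B] [Algebra P Q] [Algebra B Z] [Algebra B Q] [Algebra Y Z] [Algebra Y Q]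
  [Algebra Z Q] [IsScalarTower k P B] [IsScalarTower k P Q] [IsScalarTower P B Q]
  [IsScalarTower k B Z]
  [IsScalarTower k B Q] [IsScalarTower k Y Z] [IsScalarTower k Y Q] [IsScalarTower k Z Q]
  [IsScalarTower B Z Q] [IsScalarTower Y Z Q] [Algebra.EssFiniteType k B]
  [Algebra.EssFiniteType k Y] [Algebra.EssFiniteType k Z] [FiniteDimensional Z Q]
  [Fintype J] {M : SmoothModel k Y}

/-- the lower bound -/
theorem lower_ospT (hcomp : Twr.IsCompositum k B Y Z)
    (hdim : dimension k B + dimension k Y = dimension k Z) (hY : kodairaDim k Y ≠ ⊥)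
    (hB : kodairaDim P B ≠ ⊥) (D : J → WDiv M B) (hram : ∀ j, ((D j).toMov Q).Ramified) {a b : ℕ}
    (ha : LogKodairaGE M (fun j => (D j).S) a) (hb : GKodT k P Y Q (fun j => (D j).a) b) :
    KodairaGE P Q (a + b) := by
  classical
  haveI : CharZero P := charZero_of_injective_algebraMap (algebraMap k P).injective
  haveI : Algebra.EssFiniteType k Q := Algebra.EssFiniteType.comp k Z Q
  haveI : Algebra.EssFiniteType P B := Algebra.EssFiniteType.of_comp k P B
  haveI : Algebra.EssFiniteType P Q := Algebra.EssFiniteType.of_comp k P Q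
  haveI hMne : Nonempty M.I := by
    obtain ⟨i, -⟩ := M.cover 1 (fun c hc => Valuation.one_apply_of_ne_zero (by simpa using hc))
    exact ⟨i⟩
  -- dimensions
  have hdimQ : dimension k B + dimension k Y = dimension k Q := by
    rw [hdim]
    exact (Twr.dimension_eq_of_algebraic (k := k) (K := Z) (L := Q)).symm
  have hZQ : ∀ z : Z, algebraMap Z Q z ∈ IntermediateField.adjoin k
      (Set.range (algebraMap B Q) ∪ Set.range (algebraMap Y Q)) := by
    intro z
    have h1 : IntermediateField.adjoin k (Set.range (algebraMap B Z) ∪ Set.range (algebraMap Y Z)) ≤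
        (IntermediateField.adjoin k (Set.range (algebraMap B Q) ∪
          Set.range (algebraMap Y Q))).comap (IsScalarTower.toAlgHom k Z Q) := by
      rw [IntermediateField.adjoin_le_iff]
      rintro _ (⟨b, rfl⟩ | ⟨b, rfl⟩)
      · exact IntermediateField.subset_adjoin k _ (Or.inl ⟨b, by
          rw [IsScalarTower.algebraMap_apply B Z Q]; rfl⟩)
      · exact IntermediateField.subset_adjoin k _ (Or.inr ⟨b, by
          rw [IsScalarTower.algebraMap_apply Y Z Q]; rfl⟩)
    exact h1 (hcomp z)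
  have halg : ∀ a : Q, IsAlgebraic (Algebra.adjoin k
      (Set.range (algebraMap B Q) ∪ Set.range (algebraMap Y Q))) a := PF.alg_adjoin hZQ
  have hBY : ∀ {x : Fin (dimension k P) ⊕ Fin (dimension P B) → B}
      {y : Fin (dimension k Y) → Y},
      IsTranscendenceBasis k x → IsTranscendenceBasis k y → IsTranscendenceBasis k
        (Sum.elim (fun i => algebraMap B Q (x i)) (fun j => algebraMap Y Q (y j))) :=
    fun hx hy => sumElim_tb hdimQ halg hx hy
  -- the forms
  obtain ⟨p, x', hp, hx', m₁, hm₁, q₁, h₀, hh₀ne, hh₀, f, hf, hfh⟩ := hb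
  set x : Fin (dimension k P) ⊕ Fin (dimension P B) → B :=
    Sum.elim (fun i => algebraMap P B (p i)) x' with hxdef
  have hx : IsTranscendenceBasis k x := Fib.tb_rel hp hx'
  obtain ⟨y, hy⟩ := exists_tb k Y
  obtain ⟨m₂, hm₂, ω, hω, hω0, φ, hφ, hφω⟩ := ha
  obtain ⟨m₃, hm₃, η, hη, hηne, -⟩ := (PF.ge_zero hB).exists_coord hx'
  obtain ⟨m₄, hm₄, ω₁, hω₁, hω₁0⟩ := Br.pos_of_kodaira M (fun j => (D j).S) (PF.ge_zero hY)
  rw [mem_pluriSections_iff hy] at hω hω₁
  have hφmem : ∀ i, φ i * coef hy m₂ ω ∈ CoefSec M (fun j => (D j).S) y m₂ (fun _ => m₂) :=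
    fun i => by
      have := (mem_pluriSections_iff hy _).mp (hφω i)
      rwa [map_smul, smul_eq_mul] at this
  set g₀ := coef hy m₂ ω with hg₀
  set g₁ := coef hy m₄ ω₁ with hg₁
  have hg₀ne : g₀ ≠ 0 := fun h0 => hω0 (by rw [eq_coef_smul hy m₂ ω, ← hg₀, h0, zero_smul])
  have hg₁ne : g₁ ≠ 0 := fun h0 => hω₁0 (by rw [eq_coef_smul hy m₄ ω₁, ← hg₁, h0, zero_smul])
  have hηG : η ∈ GFormT k P Y Q (fun j => (D j).a) x m₃ (fun _ => 0) :=
    GFormT.of_WReg hp hx' hη fun w hw hrg => RG.nontriv (Z := Z) hcomp hdim hw hrg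
  -- the certificates
  choose C hC using fun j => exists_cert ((D j).toMov Q)
  -- the weights
  set q : J → ℕ := fun j => q₁ j * m₂ + m₂ * m₁ with hq
  set s : ℕ := max 2 (Module.finrank Z Q) * ∑ j, C j * q j with hs
  set m : ℕ := m₁ * m₂ + m₃ * (m₄ * s) with hm
  have hqm : max 2 (Module.finrank Z Q) * ∑ j, C j * q j ≤ m := by
    rw [← hs, hm]
    have h1 : s ≤ m₃ * (m₄ * s) := by
      calc s = 1 * (1 * s) := by ring
        _ ≤ m₃ * (m₄ * s) := Nat.mul_le_mul hm₃ (Nat.mul_le_mul_right s hm₄)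
    omega
  have hm1 : 1 ≤ m := by
    have h1 : 1 * 1 ≤ m₁ * m₂ := Nat.mul_le_mul hm₁ hm₂
    omega
  -- on `B`
  set vB : B := η ^ (m₄ * s) * ∏ j, (D j).a 0 ^ (m₂ * m₁) with hvB
  have hB1 : ∀ {h : B}, h ∈ GFormT k P Y Q (fun j => (D j).a) x (m₁ * m₂) (fun j => q₁ j * m₂) →
      h * vB ∈ GFormT k P Y Q (fun j => (D j).a) x m q := by
    intro h hh
    have h1 := GFormT.coef (GFormT.mul hh (GFormT.pow hηG (m₄ * s))) (fun _ => 0) (fun _ => m₂ * m₁)
    have h2 : (fun j => q₁ j * m₂ + 0 * (m₄ * s) + m₂ * m₁) = q := by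
      funext j
      rw [hq]
      ring
    rw [h2] at h1
    rw [hvB, ← mul_assoc]
    exact h1
  obtain ⟨p₂, hp₂⟩ : ∃ p, m₂ = p + 1 := ⟨m₂ - 1, by omega⟩
  have hB2 : ∀ {h : B}, h ∈ GFormT k P Y Q (fun j => (D j).a) x m₁ q₁ →
      h * (h₀ ^ p₂ * vB) ∈ GFormT k P Y Q (fun j => (D j).a) x m q := by
    intro h hh
    rw [← mul_assoc]
    refine hB1 ?_
    have h1 := GFormT.mul hh (GFormT.pow hh₀ p₂)
    have h2 : m₁ + m₁ * p₂ = m₁ * m₂ := by rw [hp₂]; ring
    have h3 : (fun j => q₁ j + q₁ j * p₂) = fun j => q₁ j * m₂ := by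
      funext j
      rw [hp₂]
      ring
    rw [h2, h3] at h1
    exact h1
  have hvB0 : h₀ ^ p₂ * vB ≠ 0 := by
    refine mul_ne_zero (pow_ne_zero _ hh₀ne) (mul_ne_zero (pow_ne_zero _ hηne)
      (Finset.prod_ne_zero_iff.2 fun j _ => pow_ne_zero _ ?_))
    have h0 := (D j).a_indep.ne_zero (0 : Fin ((D j).r + 1))
    exact h0
  -- on `Y`
  set vY : Y := g₁ ^ (m₃ * s) * ∏ j, (D j).s 0 ^ (q₁ j * m₂) with hvY
  have hY1 : ∀ {g : Y}, g ∈ CoefSec M (fun j => (D j).S) y (m₁ * m₂) (fun _ => m₂ * m₁) →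
      g * vY ∈ CoefSec M (fun j => (D j).S) y m q := by
    intro g hg
    have h1 := CoefSec.sec (CoefSec.mul hg (CoefSec.pow hω₁ (m₃ * s)))
      (fun j => (D j).s_mem 0) (fun j => q₁ j * m₂)
    have h2 : (fun j => m₂ * m₁ + m₃ * s * 0 + q₁ j * m₂) = q := by
      funext j
      rw [hq]
      ring
    have h3 : m₁ * m₂ + m₃ * s * m₄ = m := by rw [hm]; ring
    rw [h2, h3] at h1
    rw [hvY, ← mul_assoc]
    exact h1
  obtain ⟨p₁, hp₁⟩ : ∃ p, m₁ = p + 1 := ⟨m₁ - 1, by omega⟩
  have hY2 : ∀ {g : Y}, g ∈ CoefSec M (fun j => (D j).S) y m₂ (fun _ => m₂) →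
      g * (g₀ ^ p₁ * vY) ∈ CoefSec M (fun j => (D j).S) y m q := by
    intro g hg
    rw [← mul_assoc]
    refine hY1 ?_
    have h1 := CoefSec.mul hg (CoefSec.pow hω p₁)
    have h2 : m₂ + p₁ * m₂ = m₁ * m₂ := by rw [hp₁]; ring
    have h3 : (fun _ : J => m₁ * m₂) = fun _ => m₂ * m₁ := by
      funext j
      ring
    rw [h2, h3] at h1
    exact h1
  have hvY0 : g₀ ^ p₁ * vY ≠ 0 := by
    refine mul_ne_zero (pow_ne_zero _ hg₀ne) (mul_ne_zero (pow_ne_zero _ hg₁ne)
      (Finset.prod_ne_zero_iff.2 fun j _ => pow_ne_zero _ ((D j).s_indep.ne_zero 0)))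
  -- on `Q`
  have key := fun {h : B} (hh : h ∈ GFormT k P Y Q (fun j => (D j).a) x m q) {g : Y}
      (hg : g ∈ CoefSec M (fun j => (D j).S) y m q) =>
    mem_ospT (P := P) (Z := Z) hcomp hdim D hram hC hqm hx hy hh hg
  have hsec0 : ∀ j, (D j).sec Q ≠ 0 := fun j => sec_ne_zero ((D j).toMov Q) hBY hx
  set H := h₀ * (h₀ ^ p₂ * vB) with hH
  set G := g₀ * (g₀ ^ p₁ * vY) with hG
  set U : Q := algebraMap B Q H * algebraMap Y Q G * ∏ j, 1 / (D j).sec Q ^ q j with hU
  have hUne : U ≠ 0 := by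
    refine mul_ne_zero (mul_ne_zero ((map_ne_zero _).2 (mul_ne_zero hh₀ne hvB0))
      ((map_ne_zero _).2 (mul_ne_zero hg₀ne hvY0))) (Finset.prod_ne_zero_iff.2 fun j _ => ?_)
    exact one_div_ne_zero (pow_ne_zero _ (hsec0 j))
  have hUmem := key (hB2 hh₀) (hY2 hω)
  -- over `P`
  have hyB : IsTranscendenceBasis B (fun j => algebraMap Y Q (y j)) := Up.tb_over hdimQ halg hy
  have hz' : IsTranscendenceBasis P (Sum.elim (fun i => algebraMap B Q (x' i))
      (fun j => algebraMap Y Q (y j))) := Fib.tb_rel hx' hyB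
  have hφB : AlgebraicIndependent B (fun j => algebraMap Y Q (φ j)) := by
    obtain ⟨t, ht, ht'⟩ := exists_isTranscendenceBasis_superset (R := k) (s := Set.range φ)
      hφ.to_subtype_range
    haveI := finite_of_isTranscendenceBasis ht'
    haveI : Fintype t := Fintype.ofFinite _
    have h1 : IsTranscendenceBasis B (fun i : t => algebraMap Y Q (i : Y)) :=
      Up.tb_over hdimQ halg ht'
    exact h1.1.comp (fun j => (⟨φ j, ht ⟨j, rfl⟩⟩ : t)) fun i j hij =>
      hφ.injective (congrArg Subtype.val hij)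
  have hind : AlgebraicIndependent P
      (Sum.elim (fun j => algebraMap Y Q (φ j)) (algebraMap B Q ∘ f)) :=
    AlgebraicIndependent.sumElim_comp hf hφB
  have hconv : ∀ g : Q, g ∈ WRegT k P (Sum.elim (fun i => algebraMap B Q (x i))
      (fun j => algebraMap Y Q (y j))) m → g ∈ WReg P (Sum.elim (fun i => algebraMap B Q (x' i))
      (fun j => algebraMap Y Q (y j))) m := by
    intro g hg
    refine WRegT.to_rel hp hz' ?_
    have h1 := WRegT.reindex hg (Equiv.sumAssoc (Fin (dimension k P)) (Fin (dimension P B))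
      (Fin (dimension k Y))).symm
    convert h1 using 1
    congr 1
    funext i
    rcases i with i | i | i
    · simp [hxdef, ← IsScalarTower.algebraMap_apply P B Q]
    · simp [hxdef]
    · simp
  -- reindex
  have hcard : Fintype.card (Fin (dimension P B) ⊕ Fin (dimension k Y)) =
      Fintype.card (Fin (dimension P Q)) := by
    rw [card_eq_of_isTranscendenceBasis hz', Fintype.card_fin]
  let e : Fin (dimension P Q) ≃ Fin (dimension P B) ⊕ Fin (dimension k Y) :=
    (Fintype.equivOfCardEq hcard).symm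
  let e' : Fin (a + b) ≃ Fin a ⊕ Fin b := finSumFinEquiv.symm
  refine KodairaGE.of_coord ((isTranscendenceBasis_equiv e).2 hz') hm1
    (WReg.reindex (hconv _ hUmem) e) hUne (hind.comp e' e'.injective) fun i => ?_
  refine WReg.reindex (hconv _ ?_) e
  simp only [Function.comp_apply]
  rcases e' i with j | j
  · simp only [Sum.elim_inl]
    have h1 := key (hB2 hh₀) (hY2 (hφmem j))
    have h2 : algebraMap Y Q (φ j) * U = algebraMap B Q H *
        algebraMap Y Q (φ j * g₀ * (g₀ ^ p₁ * vY)) * ∏ j, 1 / (D j).sec Q ^ q j := by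
      rw [hU, hG, mul_assoc (φ j), map_mul (algebraMap Y Q) (φ j)]
      ring
    rw [h2]
    exact h1
  · simp only [Sum.elim_inr, Function.comp_apply]
    have h1 := key (hB2 (hfh j)) (hY2 hω)
    have h2 : algebraMap B Q (f j) * U = algebraMap B Q (f j * h₀ * (h₀ ^ p₂ * vB)) *
        algebraMap Y Q G * ∏ j, 1 / (D j).sec Q ^ q j := by
      rw [hU, hH, mul_assoc (f j), map_mul (algebraMap B Q) (f j)]
      ring
    rw [h2]
    exact h1

end OC

end Pf72953.Rsp
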