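import Mathlib
import Pool.Agent.Lib.Pf72953l.Base
import Pool.Agent.Lib.Pf72953z.UpA

/-!
The one-sided product formula over a base: the norm of a form over `G = P·Y` is a tensor, after multiplication by an element of `G`.
-/

set_option autoImplicit false
set_option linter.style.haveILetI false
set_option linter.unusedSectionVars false

open scoped WithZero
open Pf72953 Pf72953.Mov Pf72953.Up Pf72953.Br Pf72953.Osp

namespace Pf72953.Rsp

variable {k P G B Y Z R J : Type*} [Field k] [CharZero k] [IsAlgClosed k] [Field P] [Field G]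
  [Field B] [Field Y]
  [Field Z] [Field R] [Algebra k P] [Algebra k G] [Algebra k B] [Algebra k Y] [Algebra k Z]
  [Algebra k R] [Algebra P G] [Algebra P B] [Algebra P Z] [Algebra P R] [Algebra Y G] [Algebra G Z]
  [Algebra G R] [Algebra B Z] [Algebra B R] [Algebra Y Z] [Algebra Y R] [Algebra Z R]
  [IsScalarTower k P G] [IsScalarTower k P B] [IsScalarTower k P Z] [IsScalarTower k P R]
  [IsScalarTower k G Z] [IsScalarTower k G R] [IsScalarTower k Y G] [IsScalarTower P G Z]
  [IsScalarTower P G R] [IsScalarTower P B Z] [IsScalarTower P B R] [IsScalarTower P Z R]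
  [IsScalarTower Y G Z] [IsScalarTower Y G R] [IsScalarTower G Z R] [IsScalarTower k B Z]
  [IsScalarTower k B R] [IsScalarTower k Y Z] [IsScalarTower k Y R] [IsScalarTower k Z R]
  [IsScalarTower B Z R] [IsScalarTower Y Z R] [Algebra.EssFiniteType k B]
  [Algebra.EssFiniteType k Y] [Algebra.EssFiniteType k Z]

/-- the vector fields over `G` at a prime divisor which is trivial on `B` -/
theorem prime_regT [CharZero G] (hcomp : Twr.IsCompositum k B Y Z)
    (hdim : dimension k B + dimension k Y = dimension k Z)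
    (hdimG : dimension k P + dimension k Y = dimension k G) {M : SmoothModel k Y} {i : M.I}
    {v : Valuation Z ℤᵐ⁰} (hv : Fac.PrimeOn (bc B Z (M.A i)) v)
    {x : Fin (dimension P B) → B} (hx : IsTranscendenceBasis P x) :
    RegBasis G v (fun a => algebraMap B Z (x a)) := by
  haveI : CharZero B := charZero_of_injective_algebraMap (algebraMap k B).injective
  haveI : CharZero P := charZero_of_injective_algebraMap (algebraMap k P).injective
  haveI : Algebra.EssFiniteType B Z := Algebra.EssFiniteType.of_comp k B Z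
  have hxK : IsTranscendenceBasis B (fun a => algebraMap Y Z (M.x i a)) :=
    tb_over hdim (PF.alg_of_compositum hcomp) (M.tb i)
  have hch : Chart hxK (bc B Z (M.A i)) :=
    (chart_of_model M i).baseChange hxK (PF.gen_of_comp hcomp)
  have hxG : IsTranscendenceBasis G (fun a => algebraMap B Z (x a)) := tb_G hcomp hdim hdimG hx
  obtain ⟨hd, hr⟩ := hv.div hch
  have hB' : ∀ b : B, v (algebraMap B Z b) ≤ 1 := fun b => hv.le _ (Subalgebra.algebraMap_mem _ _)
  refine ⟨hxG, fun a => hB' _, fun a z hz => ?_⟩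
  refine PF.der_of_chart hch hd hr hv.le ((pd hxG a).restrictScalars k) (fun c hc => ?_) hz
  change v (pd hxG a c) ≤ 1
  induction hc using Algebra.adjoin_induction with
  | mem z hz =>
    obtain ⟨f, hf, rfl⟩ := hz
    rw [IsScalarTower.algebraMap_apply Y G Z, Derivation.map_algebraMap, map_zero]
    exact zero_le_one
  | algebraMap r =>
    have h1 := PF.der_sum hx ((pd hxG a).restrictScalars P) r
    change pd hxG a (algebraMap B Z r) = _ at h1
    rw [h1]
    refine Valuation.map_sum_le _ fun c _ => ?_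
    rw [map_mul]
    refine mul_le_one' (hB' _) ?_
    change v (pd hxG a (algebraMap B Z (x c))) ≤ 1
    rw [pd_self hxG a c]
    split_ifs
    · rw [map_one]
    · rw [map_zero]
      exact zero_le_one
  | add u u' _ _ hu hu' =>
    rw [map_add]
    exact (Valuation.map_add _ _ _).trans (max_le hu hu')
  | mul u u' hum hum' hu hu' =>
    rw [Derivation.leibniz, smul_eq_mul, smul_eq_mul]
    refine (Valuation.map_add _ _ _).trans (max_le ?_ ?_)
    · rw [map_mul]
      exact mul_le_one' (hv.le _ hum) hu'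
    · rw [map_mul]
      exact mul_le_one' (hv.le _ hum') hu

variable [FiniteDimensional Z R] [IsGalois Z R] [Fintype J]

/-- the estimate at a prime divisor which is trivial on `Y` -/
theorem nfo_leT [CharZero G] (hcomp : Twr.IsCompositum k B Y Z)
    (hdim : dimension k B + dimension k Y = dimension k Z)
    (hdimG : dimension k P + dimension k Y = dimension k G) {M : SmoothModel k Y}
    {r : J → ℕ} {a : ∀ j, Fin (r j + 1) → B} {n : ℕ} {ρ : Fin n → Z} {jj : Fin n → J} {N : ℕ}
    (hρ : Rho k Y Z R M a ρ jj N) {x : Fin (dimension P B) → B} (hx : IsTranscendenceBasis P x)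
    {m : ℕ} {g : R} (hg : g ∈ WReg G (fun i => algebraMap B R (x i)) m) {i : M.I}
    {v : Valuation Z ℤᵐ⁰} (hv : Fac.PrimeOn (bc B Z (M.A i)) v)
    (htriv : ∀ y : G, y ≠ 0 → v (algebraMap G Z y) = 1) : v (nfo ρ m g) ≤ 1 := by
  classical
  haveI : CharZero B := charZero_of_injective_algebraMap (algebraMap k B).injective
  haveI : Algebra.EssFiniteType B Z := Algebra.EssFiniteType.of_comp k B Z
  haveI : Algebra.EssFiniteType G Z := Algebra.EssFiniteType.of_comp k G Z
  haveI : Algebra.EssFiniteType G R := Algebra.EssFiniteType.comp G Z R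
  haveI : Algebra.EssFiniteType B R := Algebra.EssFiniteType.comp B Z R
  haveI : Algebra.EssFiniteType k R := Algebra.EssFiniteType.comp k Z R
  have hxK : IsTranscendenceBasis B (fun a => algebraMap Y Z (M.x i a)) :=
    tb_over hdim (PF.alg_of_compositum hcomp) (M.tb i)
  have hch : Chart hxK (bc B Z (M.A i)) :=
    (chart_of_model M i).baseChange hxK (PF.gen_of_comp hcomp)
  have hnorm : nfo ρ m g = Algebra.norm Z (algebraMap R R
      (g * ∏ l, algebraMap Z R (ρ l) ^ m)) := by
    have h1 : g * ∏ l, algebraMap Z R (ρ l) ^ m = g * algebraMap Z R (∏ l, ρ l ^ m) := by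
      rw [map_prod]
      simp only [map_pow]
    rw [Algebra.algebraMap_self_apply, h1, map_mul, Algebra.norm_algebraMap, nfo,
      ← Finset.prod_pow]
    simp only [← pow_mul]
  rw [hnorm]
  refine norm_le_one hv.nontriv fun w hw => ?_
  have hv' : Fac.PrimeOn (bc B Z (M.A i)) (w.comap (algebraMap Z R)) := primeOn_of_equiv hv hw
  obtain ⟨hd, hr⟩ := hv'.div hch
  have hdimR : dimension B R = dimension B Z := by
    have h1 := card_eq_of_isTranscendenceBasis hxK
    have h2 := card_eq_of_isTranscendenceBasis (hxK.algebraMap_comp (A := R))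
    rw [← h1, ← h2]
  have hwB : IsDivisorial B R w := IsDivisorial.of_comap hdimR hd
  have hwk : IsDivisorial k R w := IsDivisorial.under hwB
  have hwtB : ∀ b : B, b ≠ 0 → w (algebraMap B R b) = 1 := hwB.const
  have hwtG : ∀ y : G, y ≠ 0 → w (algebraMap G R y) = 1 := by
    intro y hy
    rw [IsScalarTower.algebraMap_apply G Z R]
    exact Fac.val_eq_one_of_equiv (w := v) (w' := w.comap (algebraMap Z R)) hw (htriv y hy)
  have hwtY : ∀ y : Y, y ≠ 0 → w (algebraMap Y R y) = 1 := by
    intro y hy
    rw [IsScalarTower.algebraMap_apply Y G R]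
    exact hwtG _ (by simpa using hy)
  have hwY : IsDivisorial G R w := Mov.IsDivisorial.over hwk hwtG
  have hreg : RegBasis G (w.comap (algebraMap Z R)) (fun a => algebraMap B Z (x a)) :=
    prime_regT hcomp hdim hdimG hv' hx
  have hg' : g ∈ WReg G (fun i => algebraMap Z R (algebraMap B Z (x i))) m := by
    simpa only [← IsScalarTower.algebraMap_apply B Z R] using hg
  have hle1 := hρ.le_one w hwk hwtB hwtY
  rw [map_mul, map_prod]
  by_cases hU : Unr Z w
  · refine mul_le_one' (local_unramified hwY hreg hU hg') (Finset.prod_le_one' fun l _ => ?_)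
    rw [map_pow]
    exact pow_le_one' (hle1 l) m
  · have hbad : Bad k M B Z i w := by
      refine ⟨hwk, hwtB, ⟨fun f hf => ?_, fun d hdd z hz => ?_⟩, hU⟩
      · rcases eq_or_ne f 0 with rfl | hf0
        · rw [map_zero, map_zero]
          exact zero_le_one
        · exact (hwtY f hf0).le
      · rw [der_eq_sum hxK d z, map_sum]
        refine Valuation.map_sum_le _ fun c _ => ?_
        rw [map_mul, map_mul]
        refine mul_le_one' ?_ ?_
        · exact hr.der c z hz
        · exact hdd c
    obtain ⟨l₀, hl₀⟩ := hρ.lt_one i w hbad hwtY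
    have h1 := local_ramified hwY hreg hl₀ hg'
    rw [← Finset.mul_prod_erase Finset.univ _ (Finset.mem_univ l₀), ← mul_assoc, map_pow]
    refine mul_le_one' h1 (Finset.prod_le_one' fun l _ => ?_)
    rw [map_pow]
    exact pow_le_one' (hle1 l) m


omit [CharZero k] [IsAlgClosed k] in
theorem bc_map {A : Subalgebra k Y} {d : G} (hd : d ∈ bc P G A) : algebraMap G Z d ∈ bc B Z A := by
  induction hd using Algebra.adjoin_induction with
  | mem z hz =>
    obtain ⟨f, hf, rfl⟩ := hz
    rw [← IsScalarTower.algebraMap_apply Y G Z]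
    exact Fac.mem_bc_of hf
  | algebraMap r =>
    rw [← IsScalarTower.algebraMap_apply P G Z, IsScalarTower.algebraMap_apply P B Z]
    exact Subalgebra.algebraMap_mem _ _
  | add u u' _ _ hu hu' =>
    rw [map_add]
    exact Subalgebra.add_mem _ hu hu'
  | mul u u' _ _ hu hu' =>
    rw [map_mul]
    exact Subalgebra.mul_mem _ hu hu'

/-- the elements of `G` on which all prime divisors of the chart which are not trivial on `G` and at which `γ` vanishes vanish -/
theorem exists_den (hcomp : Twr.IsCompositum k B Y Z) (hcompG : Twr.IsCompositum k P Y G)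
    (hdim : dimension k B + dimension k Y = dimension k Z)
    (hdimG : dimension k P + dimension k Y = dimension k G) {M : SmoothModel k Y} {i : M.I}
    {γ : Z} (hγ : γ ∈ bc B Z (M.A i)) (hγ0 : γ ≠ 0) :
    ∃ c : G, c ≠ 0 ∧ algebraMap G Z c ∈ bc B Z (M.A i) ∧
      ∀ v : Valuation Z ℤᵐ⁰, Fac.PrimeOn (bc B Z (M.A i)) v → v (algebraMap G Z c) = 1 →
        v γ < 1 → ∀ y : G, y ≠ 0 → v (algebraMap G Z y) = 1 := by
  classical
  haveI : CharZero B := charZero_of_injective_algebraMap (algebraMap k B).injective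
  haveI : CharZero P := charZero_of_injective_algebraMap (algebraMap k P).injective
  haveI : Algebra.EssFiniteType B Z := Algebra.EssFiniteType.of_comp k B Z
  haveI : Algebra.EssFiniteType k G := Red.essFiniteType_sub k G Z
  haveI : Algebra.EssFiniteType k P := Red.essFiniteType_sub k P B
  have hxK : IsTranscendenceBasis B (fun a => algebraMap Y Z (M.x i a)) :=
    tb_over hdim (PF.alg_of_compositum hcomp) (M.tb i)
  have hch : Chart hxK (bc B Z (M.A i)) :=
    (chart_of_model M i).baseChange hxK (PF.gen_of_comp hcomp)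
  have hxP : IsTranscendenceBasis P (fun a => algebraMap Y G (M.x i a)) :=
    tb_over hdimG (PF.alg_of_compositum hcompG) (M.tb i)
  have hchP : Chart hxP (bc P G (M.A i)) :=
    (chart_of_model M i).baseChange hxP (PF.gen_of_comp hcompG)
  set A := bc B Z (M.A i) with hA
  haveI := hch.isNoetherian
  set I : Ideal A := Ideal.span {⟨γ, hγ⟩} with hI
  have hfin := Ideal.finite_minimalPrimes_of_isNoetherianRing A I
  set S := hfin.toFinset with hS
  have hex : ∀ p : Ideal A, ∃ d : G, d ≠ 0 ∧ ∃ hd : algebraMap G Z d ∈ A,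
      ((∃ d' : G, d' ≠ 0 ∧ ∃ hd' : algebraMap G Z d' ∈ A, (⟨_, hd'⟩ : A) ∈ p) →
        (⟨_, hd⟩ : A) ∈ p) := by
    intro p
    by_cases h : ∃ d' : G, d' ≠ 0 ∧ ∃ hd' : algebraMap G Z d' ∈ A, (⟨_, hd'⟩ : A) ∈ p
    · obtain ⟨d', h0, hd', hp⟩ := h
      exact ⟨d', h0, hd', fun _ => hp⟩
    · exact ⟨1, one_ne_zero, by rw [map_one]; exact A.one_mem, fun h' => absurd h' h⟩
  choose d hd0 hdA hdp using hex
  refine ⟨∏ p ∈ S, d p, Finset.prod_ne_zero_iff.2 fun p _ => hd0 p, ?_, ?_⟩
  · rw [map_prod]
    exact Subalgebra.prod_mem _ fun p _ => hdA p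
  intro v hv hvc hvγ y hy
  by_contra hne
  -- the centre
  let p : Ideal A :=
    { carrier := {a | v (a : Z) < 1}
      zero_mem' := by
        change v ((0 : A) : Z) < 1
        rw [ZeroMemClass.coe_zero, map_zero]
        exact zero_lt_one
      add_mem' := fun {a b} ha hb => by
        change v ((a : Z) + (b : Z)) < 1
        exact (Valuation.map_add _ _ _).trans_lt (max_lt ha hb)
      smul_mem' := fun c {a} ha => by
        change v ((c : Z) * (a : Z)) < 1
        rw [map_mul]
        exact (mul_le_of_le_one_left' (hv.le _ c.2)).trans_lt ha }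
  have hpmem : ∀ a : A, a ∈ p ↔ v (a : Z) < 1 := fun a => Iff.rfl
  have hpp : p.IsPrime := by
    refine ⟨fun htop => ?_, fun {a b} hab => ?_⟩
    · have h4 : (1 : A) ∈ p := by rw [htop]; trivial
      rw [hpmem, OneMemClass.coe_one, map_one] at h4
      exact lt_irrefl _ h4
    · by_contra hn
      push Not at hn
      rw [hpmem, hpmem] at hn
      have h4 : v (a : Z) = 1 := le_antisymm (hv.le _ a.2) (not_lt.1 hn.1)
      have h5 : v (b : Z) = 1 := le_antisymm (hv.le _ b.2) (not_lt.1 hn.2)
      have h6 : v ((a : Z) * (b : Z)) < 1 := hab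
      rw [map_mul, h4, h5, one_mul] at h6
      exact lt_irrefl _ h6
  have hmin : p ∈ I.minimalPrimes := by
    refine ⟨⟨hpp, ?_⟩, fun p' hp' hle a ha => ?_⟩
    · rw [hI, Ideal.span_le, Set.singleton_subset_iff]
      exact hvγ
    · obtain ⟨hp'p, hp'I⟩ := hp'
      refine hv.height hp'p ?_ (fun b hb => hle hb) a ha
      intro h0
      have h1 : (⟨γ, hγ⟩ : A) ∈ p' := hp'I (Ideal.subset_span rfl)
      rw [h0, Ideal.mem_bot] at h1
      exact hγ0 (congrArg Subtype.val h1)
  have hpS : p ∈ S := hfin.mem_toFinset.2 hmin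
  -- an element of `G` in the centre
  have hGp : ∃ d' : G, d' ≠ 0 ∧ ∃ hd' : algebraMap G Z d' ∈ A, (⟨_, hd'⟩ : A) ∈ p := by
    obtain ⟨f, hf, f', hf', hf'0, rfl⟩ := hchP.frac y
    have hf0 : f ≠ 0 := by
      rintro rfl
      simp at hy
    have h1 : v (algebraMap G Z f) ≤ 1 := hv.le _ (bc_map hf)
    have h2 : v (algebraMap G Z f') ≤ 1 := hv.le _ (bc_map hf')
    rcases lt_or_eq_of_le h1 with h3 | h3
    · exact ⟨f, hf0, bc_map hf, h3⟩
    · rcases lt_or_eq_of_le h2 with h4 | h4
      · exact ⟨f', hf'0, bc_map hf', h4⟩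
      · exfalso
        apply hne
        rw [map_div₀, map_div₀, h3, h4, div_one]
  have h1 := hdp p hGp
  have h2 : v (algebraMap G Z (∏ p ∈ S, d p)) < 1 := by
    rw [map_prod, map_prod, ← Finset.mul_prod_erase _ _ hpS]
    exact mul_lt_one_of_lt_of_le h1 (Finset.prod_le_one' fun q _ => hv.le _ (hdA q))
  rw [hvc] at h2
  exact lt_irrefl _ h2

theorem nfo_memT [CharZero G] (hcomp : Twr.IsCompositum k B Y Z)
    (hcompG : Twr.IsCompositum k P Y G)
    (hdim : dimension k B + dimension k Y = dimension k Z)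
    (hdimG : dimension k P + dimension k Y = dimension k G) {M : SmoothModel k Y}
    {r : J → ℕ} {a : ∀ j, Fin (r j + 1) → B} {n : ℕ} {ρ : Fin n → Z} {jj : Fin n → J} {N : ℕ}
    (hρ : Rho k Y Z R M a ρ jj N) {x : Fin (dimension P B) → B} (hx : IsTranscendenceBasis P x)
    {m : ℕ} {g : R} (hg : g ∈ WReg G (fun i => algebraMap B R (x i)) m) (hg0 : g ≠ 0) :
    ∃ (c : G) (p : ℕ) (y : Fin (p + 1) → Y) (h : Fin (p + 1) → B), c ≠ 0 ∧
      LinearIndependent k y ∧ algebraMap G Z c * nfo ρ m g =
        ∑ l, algebraMap B Z (h l) * algebraMap Y Z (y l) := by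
  classical
  haveI : CharZero B := charZero_of_injective_algebraMap (algebraMap k B).injective
  haveI : CharZero Y := charZero_of_injective_algebraMap (algebraMap k Y).injective
  obtain ⟨i, -⟩ := M.cover 1 (fun c hc => Valuation.one_apply_of_ne_zero (by simpa using hc))
  have hxK : IsTranscendenceBasis B (fun a => algebraMap Y Z (M.x i a)) :=
    tb_over hdim (PF.alg_of_compositum hcomp) (M.tb i)
  have hch : Chart hxK (bc B Z (M.A i)) :=
    (chart_of_model M i).baseChange hxK (PF.gen_of_comp hcomp)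
  have hH0 : nfo ρ m g ≠ 0 := nfo_ne hρ hg0
  let b := Module.Basis.ofVectorSpace k B
  obtain ⟨α, hα, γ, hγ, hγ0, hH⟩ := hch.frac (nfo ρ m g)
  obtain ⟨c, hc0, hcA, hc⟩ := exists_den (P := P) hcomp hcompG hdim hdimG hγ hγ0
  have hcZ : algebraMap G Z c ≠ 0 := by simpa using hc0
  obtain ⟨s, hs⟩ := Fac.hartogs_away hch hcA hcZ (f := nfo ρ m g) (fun v hv hvc => by
    rcases lt_or_eq_of_le (hv.le _ hγ) with h1 | h1
    · exact nfo_leT hcomp hdim hdimG hρ hx hg hv (hc v hv hvc h1)
    · rw [hH, map_div₀, h1, div_one]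
      exact hv.le _ hα)
  obtain ⟨q, hq, hqe⟩ := mem_bc b hs
  have hq0 : q ≠ 0 := by
    rintro rfl
    rw [Finsupp.sum_zero_index] at hqe
    exact mul_ne_zero (pow_ne_zero s hcZ) hH0 hqe
  obtain ⟨r', s', a', hs', -, -, he⟩ := Fac.exists_rank (Z := Z) b hq0
  refine ⟨c ^ s, r', s', a', pow_ne_zero s hc0, hs', ?_⟩
  rw [map_pow, hqe, he]

end Pf72953.Rsp
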