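import Mathlib
import Pool.Agent.Lib.Pf72953l.UpA
import Pool.Agent.Lib.Pf72953l.UpB
import Pool.Agent.Lib.Pf72953k.Main

/-!
The one-sided product formula over a base: the upper bound over `G = P·Y`.
-/

set_option autoImplicit false
set_option linter.style.haveILetI false
set_option linter.unusedSectionVars false

open scoped WithZero
open Pf72953 Pf72953.Mov Pf72953.Up Pf72953.Br Pf72953.Osp

namespace Pf72953.Rsp

variable {k P G B Y Z R J : Type*} [Field k] [CharZero k] [IsAlgClosed k] [Field P] [Field G]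
  [Field B] [Field Y]
  [Field Z] [Field R] [Algebra k P] [Algebra k G] [Algebra k B] [Algebra k Y] [Algebra k Z]
  [Algebra k R] [Algebra P G] [Algebra P B] [Algebra P Z] [Algebra P R] [Algebra Y G] [Algebra G Z]
  [Algebra G R] [Algebra B Z] [Algebra B R] [Algebra Y Z] [Algebra Y R] [Algebra Z R]
  [IsScalarTower k P G] [IsScalarTower k P B] [IsScalarTower k P Z] [IsScalarTower k P R]
  [IsScalarTower k G Z] [IsScalarTower k G R] [IsScalarTower k Y G] [IsScalarTower P G Z]
  [IsScalarTower P G R] [IsScalarTower P B Z] [IsScalarTower P B R] [IsScalarTower P Z R]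
  [IsScalarTower Y G Z] [IsScalarTower Y G R] [IsScalarTower G Z R] [IsScalarTower k B Z]
  [IsScalarTower k B R] [IsScalarTower k Y Z] [IsScalarTower k Y R] [IsScalarTower k Z R]
  [IsScalarTower B Z R] [IsScalarTower Y Z R] [Algebra.EssFiniteType k B]
  [Algebra.EssFiniteType k Y] [Algebra.EssFiniteType k Z]


variable [FiniteDimensional Z R] [IsGalois Z R] [Fintype J]

/-- the upper bound over `G` -/
theorem upper_ospT (hcomp : Twr.IsCompositum k B Y Z)
    (hcompG : Twr.IsCompositum k P Y G)
    (hdim : dimension k B + dimension k Y = dimension k Z)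
    (hdimG : dimension k P + dimension k Y = dimension k G) {M : SmoothModel k Y}
    {r : J → ℕ} {a : ∀ j, Fin (r j + 1) → B} {n : ℕ} {ρ : Fin n → Z} {jj : Fin n → J} {N : ℕ}
    (hρ : Rho k Y Z R M a ρ jj N) {c : ℕ} (hc : KodairaGE G R c) : GKodT k P Y R a c := by
  classical
  haveI : CharZero P := charZero_of_injective_algebraMap (algebraMap k P).injective
  haveI : CharZero G := charZero_of_injective_algebraMap (algebraMap k G).injective
  haveI : Algebra.EssFiniteType k R := Algebra.EssFiniteType.comp k Z R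
  haveI : Algebra.EssFiniteType G R := Algebra.EssFiniteType.of_comp k G R
  haveI : Algebra.EssFiniteType P B := Algebra.EssFiniteType.of_comp k P B
  haveI : Algebra.EssFiniteType k P := Red.essFiniteType_sub k P B
  obtain ⟨x, hx⟩ := exists_tb P B
  obtain ⟨ξ, hξ⟩ := exists_tb k P
  have hxR : IsTranscendenceBasis G (fun i => algebraMap B R (x i)) := tb_GR hcomp hdim hdimG hx
  have hcard : Fintype.card (Fin (dimension P B)) = Fintype.card (Fin (dimension G R)) := by
    rw [card_eq_of_isTranscendenceBasis hxR, Fintype.card_fin]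
  let e : Fin (dimension G R) ≃ Fin (dimension P B) := (Fintype.equivOfCardEq hcard).symm
  obtain ⟨m, hm, g₀, hg₀', hne, f, hf, hff'⟩ := hc.exists_coord ((isTranscendenceBasis_equiv e).2 hxR)
  have hre : ∀ g : R, g ∈ WReg G ((fun i => algebraMap B R (x i)) ∘ e) m →
      g ∈ WReg G (fun i => algebraMap B R (x i)) m := by
    intro g hg
    have h1 := WReg.reindex hg e.symm
    have h2 : ((fun i => algebraMap B R (x i)) ∘ e) ∘ e.symm = fun i => algebraMap B R (x i) := by
      funext i
      simp
    rwa [h2] at h1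
  have hg₀ := hre _ hg₀'
  have hff := fun i => hre _ (hff' i)
  set d := Module.finrank Z R with hd
  have hd1 : 1 ≤ d := Module.finrank_pos
  set q : J → ℕ := fun j => ∑ l, if jj l = j then N * (m * d) else 0 with hq
  -- the space of forms
  set V : Set B := GFormT k P Y R a (Sum.elim (fun i => algebraMap P B (ξ i)) x) (m * d) q with hV
  have hexp : ∀ g ∈ WReg G (fun i => algebraMap B R (x i)) m, g ≠ 0 →
      ∃ (c : G) (p : ℕ) (y : Fin (p + 1) → Y) (h : Fin (p + 1) → B), c ≠ 0 ∧ (∀ l, h l ∈ V) ∧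
        algebraMap G Z c * nfo ρ m g = ∑ l, algebraMap B Z (h l) * algebraMap Y Z (y l) := by
    intro g hg hg0
    obtain ⟨c, p, y, h, hc, hy, hsum⟩ := nfo_memT hcomp hcompG hdim hdimG hρ hx hg hg0
    exact ⟨c, p, y, h, hc, fun l => nfo_compT hcomp hcompG hdim hdimG hρ hξ hx hg hc hy hsum l,
      hsum⟩
  have hnf0 : ∀ g : R, g ≠ 0 → nfo ρ m g ≠ 0 := by
    intro g hg
    refine mul_ne_zero ?_ (Finset.prod_ne_zero_iff.mpr fun l _ => pow_ne_zero _ (hρ.ne l))
    rwa [Algebra.norm_ne_zero_iff]
  obtain ⟨v₀, hv₀, hv₀ne⟩ : ∃ v₀ ∈ V, v₀ ≠ 0 := by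
    obtain ⟨c, p, y, h, hc, hh, hsum⟩ := hexp g₀ hg₀ hne
    by_contra hcon
    push Not at hcon
    refine mul_ne_zero ((map_ne_zero (algebraMap G Z)).2 hc) (hnf0 g₀ hne) ?_
    rw [hsum]
    refine Finset.sum_eq_zero fun l _ => ?_
    rw [hcon _ (hh l), map_zero, zero_mul]
  -- the ratios of forms
  set T : Set R := {θ | ∃ p ∈ V, θ = algebraMap B R (p / v₀)} with hT
  set F₀ := IntermediateField.adjoin G T with hF₀
  have hmemF : ∀ g ∈ WReg G (fun i => algebraMap B R (x i)) m,
      algebraMap Z R (nfo ρ m g / algebraMap B Z v₀) ∈ F₀ := by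
    intro g hg
    rcases eq_or_ne g 0 with rfl | hg0
    · have h1 : nfo ρ m (0 : R) = 0 := by
        rw [nfo, Algebra.norm_zero, zero_mul]
      rw [h1, zero_div, map_zero]
      exact F₀.zero_mem
    · obtain ⟨c, p, y, h, hc, hh, hsum⟩ := hexp g hg hg0
      have hcZ : algebraMap G Z c ≠ 0 := (map_ne_zero (algebraMap G Z)).2 hc
      have e1 : nfo ρ m g / algebraMap B Z v₀ = algebraMap G Z c⁻¹ *
          ((∑ l, algebraMap B Z (h l) * algebraMap Y Z (y l)) / algebraMap B Z v₀) := by
        rw [← hsum, map_inv₀]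
        field_simp
      rw [e1, map_mul, ← IsScalarTower.algebraMap_apply G Z R, Finset.sum_div, map_sum]
      refine F₀.mul_mem (F₀.algebraMap_mem _) (F₀.sum_mem fun l _ => ?_)
      have h1 : algebraMap Z R (algebraMap B Z (h l) * algebraMap Y Z (y l) / algebraMap B Z v₀) =
          algebraMap G R (algebraMap Y G (y l)) * algebraMap B R (h l / v₀) := by
        rw [map_div₀, map_mul, map_div₀, ← IsScalarTower.algebraMap_apply B Z R,
          ← IsScalarTower.algebraMap_apply Y Z R, ← IsScalarTower.algebraMap_apply B Z R,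
          ← IsScalarTower.algebraMap_apply Y G R]
        ring
      rw [h1]
      exact F₀.mul_mem (F₀.algebraMap_mem _) (IntermediateField.subset_adjoin G T ⟨_, hh l, rfl⟩)
  have hratio : ∀ i, ∀ l : ℕ, algebraMap Z R (Algebra.norm Z
      (f i + algebraMap G R (l : G))) ∈ F₀ := by
    intro i l
    have h1 : (f i + algebraMap G R (l : G)) * g₀ ∈ WReg G (fun i => algebraMap B R (x i)) m := by
      rw [add_mul]
      exact WReg.add (hff i) (WReg.smul hg₀ _)
    have h2 := F₀.div_mem (hmemF _ h1) (hmemF _ hg₀)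
    have h3 : algebraMap Z R (nfo ρ m ((f i + algebraMap G R (l : G)) * g₀) / algebraMap B Z v₀) /
        algebraMap Z R (nfo ρ m g₀ / algebraMap B Z v₀) =
        algebraMap Z R (Algebra.norm Z (f i + algebraMap G R (l : G))) := by
      rw [← map_div₀]
      congr 1
      have h4 : nfo ρ m ((f i + algebraMap G R (l : G)) * g₀) =
          Algebra.norm Z (f i + algebraMap G R (l : G)) * nfo ρ m g₀ := by
        rw [nfo, nfo, map_mul, mul_assoc]
      have h5 := hnf0 g₀ hne
      have h6 : algebraMap B Z v₀ ≠ 0 := by simpa using hv₀ne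
      rw [h4]
      field_simp
    rwa [h3] at h2
  have halg : ∀ i, IsAlgebraic (Algebra.adjoin G T) (f i) := by
    intro i
    rw [← IntermediateField.isAlgebraic_adjoin_iff]
    exact isAlgebraic_of_norm F₀.toSubalgebra _ (fun l => by
      have h1 := hratio i l
      rwa [map_natCast] at h1 ⊢)
  obtain ⟨ψ, hψ, hψT⟩ := exists_indep_in_set T f hf halg
  choose p hp hpψ using hψT
  have hp' : AlgebraicIndependent P (fun i => p i / v₀) := by
    have h1 : AlgebraicIndependent P ψ := hψ.restrictScalars (algebraMap P G).injective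
    have h2 : ψ = fun i => (IsScalarTower.toAlgHom P B R) (p i / v₀) := funext hpψ
    rw [h2] at h1
    exact AlgebraicIndependent.of_comp _ h1
  refine ⟨ξ, x, hξ, hx, m * d, Nat.one_le_iff_ne_zero.mpr (Nat.mul_ne_zero (by omega) (by omega)), q,
    v₀, hv₀ne, hv₀, fun i => p i / v₀, hp', fun i => ?_⟩
  rw [div_mul_cancel₀ _ hv₀ne]
  exact hp i

end Pf72953.Rsp
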