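import Mathlib
import Pool.Agent.Lib.Pf72953l.LowC
import Pool.Agent.Lib.Pf72953l.UpC
import Pool.Agent.Lib.Pf72953z.WCov
import Pool.Agent.Lib.Pf72953z.RhoE
import Pool.Agent.Lib.Pf72953t.Main

/-!
The one-sided product formula over a base.
-/

set_option autoImplicit false
set_option linter.style.haveILetI false
set_option linter.unusedSectionVars false

open scoped WithZero
open Pf72953 Pf72953.Mov Pf72953.Up Pf72953.Br Pf72953.Osp

namespace Pf72953.Rsp

theorem condY_self {k Y B Z Q : Type*} [Field k] [Field Y] [Field B] [Field Z] [Field Q]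
    [Algebra k Q] [Algebra B Q] [Algebra Y Q] [Algebra Z Q] : CondY k Y B Z Q Q := by
  intro w hw _ hU
  exact ⟨AlgHom.id k Q, fun b => rfl, fun y => isAlgebraic_algebraMap y, hw, hU⟩

/-- **The one-sided product formula over a base** (lower bound): `k ⊆ P ⊆ B`, `κ(B/P) ≥ 0`, `Y = k(M)` independent of `B`, `κ(Y) ≥ 0`,
`G = P·Y`, `Z = B·Y`, `Q/Z` finite Galois. -/
theorem rel_osp {k P G B Y Z Q : Type*} [Field k] [CharZero k] [IsAlgClosed k] [Field P] [Field G]
    [Field B] [Field Y]
    [Field Z] [Field Q] [Algebra k P] [Algebra k G] [Algebra k B] [Algebra k Y] [Algebra k Z]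
    [Algebra k Q] [Algebra P G] [Algebra P B] [Algebra P Z] [Algebra P Q] [Algebra Y G]
    [Algebra G Z] [Algebra G Q] [Algebra B Z] [Algebra B Q] [Algebra Y Z] [Algebra Y Q]
    [Algebra Z Q]
    [IsScalarTower k P G] [IsScalarTower k P B] [IsScalarTower k P Z] [IsScalarTower k P Q]
    [IsScalarTower k G Z] [IsScalarTower k G Q] [IsScalarTower k Y G] [IsScalarTower P G Z]
    [IsScalarTower P G Q] [IsScalarTower P B Z] [IsScalarTower P B Q] [IsScalarTower P Z Q]
    [IsScalarTower Y G Z] [IsScalarTower Y G Q] [IsScalarTower G Z Q] [IsScalarTower k B Z]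
    [IsScalarTower k B Q] [IsScalarTower k Y Z] [IsScalarTower k Y Q] [IsScalarTower k Z Q]
    [IsScalarTower B Z Q] [IsScalarTower Y Z Q] [Algebra.EssFiniteType k B]
    [Algebra.EssFiniteType k Y] [Algebra.EssFiniteType k Z] [FiniteDimensional Z Q] [IsGalois Z Q]
    (M : SmoothModel k Y)
    (hcomp : Twr.IsCompositum k B Y Z) (hcompG : Twr.IsCompositum k P Y G)
    (hdim : dimension k B + dimension k Y = dimension k Z)
    (hdimG : dimension k P + dimension k Y = dimension k G)
    (hY : kodairaDim k Y ≠ ⊥) (hB : kodairaDim P B ≠ ⊥) (hmv : WMoves k M B Z Q) :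
    kodairaDim B Q + kodairaDim G Q ≤ kodairaDim P Q := by
  classical
  haveI : Algebra.EssFiniteType k Q := Algebra.EssFiniteType.comp k Z Q
  haveI : Algebra.EssFiniteType G Q := Algebra.EssFiniteType.of_comp k G Q
  obtain ⟨n, D, hbr, hram, hcov⟩ := exists_wcover hcomp hdim hmv
  -- over `B`
  have hB' : kodairaDim B Q ≤ logKodairaDim M (fun j => (D j).S) :=
    PF.upper_cover hcomp hdim (fun j => (D j).toMov Q) hcov
  rcases kodairaDim_eq (k := G) (K := Q) with h2 | ⟨b, hb, hb'⟩
  · rw [h2]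
    simp
  rcases Twr.logKodairaDim_eq (M := M) (fun j => (D j).S) with h1 | ⟨a, ha, ha'⟩
  · rw [h1] at hB'
    rw [le_bot_iff.mp hB']
    simp
  obtain ⟨p, ρ, jj, N, hρ⟩ := exists_rho hcomp hdim D hcov condY_self
  have hG : GKodT k P Y Q (fun j => (D j).a) b :=
    upper_ospT hcomp hcompG hdim hdimG hρ hb
  have hab : KodairaGE P Q (a + b) := lower_ospT hcomp hdim hY hB D hram ha hG
  rw [ha'] at hB'
  rw [hb']
  refine (add_le_add hB' le_rfl).trans (le_trans (le_of_eq ?_)
    (le_iSup₂_of_le (a + b) hab le_rfl))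
  push_cast
  rfl

end Pf72953.Rsp
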