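import Mathlib
import Pool.Agent.Lib.Pf72953l.Rel
import Pool.Agent.Lib.Pf72953z.Plus3
import Pool.Agent.Lib.Pf72953k.NPos

/-!
The one-sided product formula over a base, for subfields of a field `Q`, and for products of several varieties.
-/

set_option autoImplicit false
set_option linter.style.haveILetI false
set_option linter.unusedSectionVars false

open scoped WithZero
open Pf72953 Pf72953.Mov Pf72953.Up Pf72953.Br Pf72953.Osp Pf72953.PF

namespace Pf72953.Rsp

section two

variable {k Q : Type*} [Field k] [CharZero k] [IsAlgClosed k] [Field Q] [Algebra k Q]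
  [Algebra.EssFiniteType k Q]

open scoped Pf72953.Tow in
omit [CharZero k] [IsAlgClosed k] [Algebra.EssFiniteType k Q] in
theorem comp_sup {A C : IntermediateField k Q} [Fact (A ≤ A ⊔ C)] [Fact (C ≤ A ⊔ C)]
    (h : dm (A ⊔ C) = dm A + dm C) :
    Twr.IsCompositum k A C (A ⊔ C : IntermediateField k Q) := by
  intro z
  rw [(Tow.comp_of_indep (A := A) (C := C) h).gen]
  trivial

open scoped Pf72953.Tow in
theorem rel_sub {P C Y B G Z : IntermediateField k Q} (hB : B = P ⊔ C) (hG : G = P ⊔ Y)
    (hZ : Z = B ⊔ Y) (hdimB : dm B = dm P + dm C) (hdimG : dm G = dm P + dm Y)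
    (hdimZ : dm Z = dm B + dm Y) [FiniteDimensional Z Q] [IsGalois Z Q] (M : SmoothModel k Y)
    (hY : kodairaDim k Y ≠ ⊥) (hC : kodairaDim k C ≠ ⊥) [Fact (B ≤ Z)] [Fact (Y ≤ Z)]
    (hmv : WMoves k M B Z Q) : kd B + kd G ≤ kd P := by
  subst hZ hB hG
  haveI : Fact (P ≤ P ⊔ C) := ⟨le_sup_left⟩
  haveI : Fact (C ≤ P ⊔ C) := ⟨le_sup_right⟩
  haveI : Fact (P ≤ P ⊔ Y) := ⟨le_sup_left⟩
  haveI : Fact (Y ≤ P ⊔ Y) := ⟨le_sup_right⟩
  haveI : Fact (P ≤ P ⊔ C ⊔ Y) := ⟨le_sup_left.trans le_sup_left⟩
  haveI : Fact (P ⊔ Y ≤ P ⊔ C ⊔ Y) := ⟨sup_le_sup_right le_sup_left Y⟩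
  have hcomp : Twr.IsCompositum k (P ⊔ C : IntermediateField k Q) Y
      (P ⊔ C ⊔ Y : IntermediateField k Q) := comp_sup hdimZ
  have hcompG : Twr.IsCompositum k P Y (P ⊔ Y : IntermediateField k Q) := comp_sup hdimG
  have hcompB : Twr.IsCompositum k P C (P ⊔ C : IntermediateField k Q) := comp_sup hdimB
  have hBP : kodairaDim P (P ⊔ C : IntermediateField k Q) ≠ ⊥ := by
    obtain ⟨x, hx⟩ := exists_tb k C
    have h1 := Red.kodairaDim_up k P C (P ⊔ C : IntermediateField k Q) hx
      (Up.tb_over hdimB.symm (PF.alg_of_compositum hcompB) hx)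
    intro h0
    rw [h0] at h1
    exact hC (le_bot_iff.1 h1)
  exact rel_osp M hcomp hcompG hdimZ.symm hdimG.symm hY hBP hmv

open scoped Pf72953.Tow in
omit [IsAlgClosed k] in
theorem kod_sup_ne {A C : IntermediateField k Q} (h : dm (A ⊔ C) = dm A + dm C)
    (hA : kodairaDim k A ≠ ⊥) (hC : kodairaDim k C ≠ ⊥) :
    kodairaDim k (A ⊔ C : IntermediateField k Q) ≠ ⊥ := by
  haveI : Fact (A ≤ A ⊔ C) := ⟨le_sup_left⟩
  haveI : Fact (C ≤ A ⊔ C) := ⟨le_sup_right⟩
  have hcomp : Twr.IsCompositum k A C (A ⊔ C : IntermediateField k Q) := comp_sup h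
  obtain ⟨x, hx⟩ := exists_tb k A
  have h1 := KodairaGE.core (k := k) (B := A) (F := C)
    (E := (A ⊔ C : IntermediateField k Q)) (L := (A ⊔ C : IntermediateField k Q)) h.symm
    (PF.alg_of_compositum hcomp) 1 (by
      rw [eq_top_iff]
      intro z _
      exact IntermediateField.algebraMap_mem _ z) isIntegral_one
    (KodairaGE.orbCoord hx (PF.ge_zero hA)) (PF.ge_zero hC)
  intro h0
  have h2 : (((0 + 0 : ℕ) : ℕ∞) : WithBot ℕ∞) ≤
      kodairaDim k (A ⊔ C : IntermediateField k Q) := le_iSup₂_of_le _ h1 le_rfl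
  rw [h0] at h2
  simp at h2

end two

section fam

variable {k Q : Type*} [Field k] [CharZero k] [IsAlgClosed k] [Field Q] [Algebra k Q]
  [Algebra.EssFiniteType k Q] {ι : Type} [Fintype ι] [DecidableEq ι]
  {Y : ι → IntermediateField k Q}

omit [CharZero k] [IsAlgClosed k] [Algebra.EssFiniteType k Q] [Fintype ι] in
theorem part_insert (j : ι) (s : Finset ι) : part Y (insert j s) = part Y s ⊔ Y j := by
  unfold part
  rw [Finset.iSup_insert, sup_comm]

omit [CharZero k] [IsAlgClosed k] [Algebra.EssFiniteType k Q] [Fintype ι] in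
theorem part_union (s t : Finset ι) : part Y (s ∪ t) = part Y s ⊔ part Y t := by
  unfold part
  rw [Finset.iSup_union]

omit [CharZero k] [IsAlgClosed k] [Algebra.EssFiniteType k Q] in
theorem others_eq (j : ι) : others Y j = part Y {j}ᶜ := by
  refine le_antisymm (others_le' fun i hi => ?_) (iSup₂_le fun i hi => ?_)
  · exact le_iSup₂_of_le i (by simpa using hi) le_rfl
  · exact le_others (by simpa using hi)

omit [IsAlgClosed k] in
theorem kod_part_ne (hdim : ∑ i, dm (Y i) = dm (total Y))
    (hY : ∀ i, kodairaDim k (Y i) ≠ ⊥) {i₀ : ι} {t : Finset ι} (ht : i₀ ∉ t) :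
    kodairaDim k (part Y (insert i₀ t)) ≠ ⊥ := by
  have hdm : ∀ t : Finset ι, dm (part Y t) = ∑ i ∈ t, dm (Y i) := dm_part hdim
  induction t using Finset.induction_on with
  | empty =>
    have h1 : part Y (insert i₀ ∅) = Y i₀ := by
      rw [part_insert, part_empty, bot_sup_eq]
    rw [h1]
    exact hY i₀
  | insert a t ha iht =>
    have h1 : i₀ ∉ t := fun h => ht (Finset.mem_insert_of_mem h)
    have h2 : a ∉ insert i₀ t := by
      rw [Finset.mem_insert, not_or]
      exact ⟨fun h => ht (h ▸ Finset.mem_insert_self a t), ha⟩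
    rw [Finset.insert_comm, part_insert]
    refine kod_sup_ne ?_ (iht h1) (hY a)
    rw [← part_insert, hdm, hdm, Finset.sum_insert h2, add_comm]

/-- the lower bound for some of the factors -/
theorem lower_part [FiniteDimensional (total Y) Q] [IsGalois (total Y) Q]
    (hdim : ∑ i, dm (Y i) = dm (total Y))
    (hY : ∀ i, kodairaDim k (Y i) ≠ ⊥) (i₀ : ι)
    (hM : ∀ i, i ≠ i₀ → ∃ M : SmoothModel k (Y i),
      (Cardinal.aleph0 ≤ Algebra.trdeg ℚ k ∧ Fac.Factorial M) ∨
        WMoves k M (others Y i) (total Y) Q) (s : Finset ι) (hs : i₀ ∉ s) :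
    ∑ i ∈ s, kd (others Y i) + kd (part Y s) ≤ kd (⊥ : IntermediateField k Q) := by
  induction s using Finset.induction_on with
  | empty =>
    rw [Finset.sum_empty, zero_add, part_empty]
  | insert j s hj ih =>
    have hj0 : j ≠ i₀ := fun h => hs (h ▸ Finset.mem_insert_self j s)
    have hs0 : i₀ ∉ s := fun h => hs (Finset.mem_insert_of_mem h)
    obtain ⟨M, hMf⟩ := hM j hj0
    have hmv : WMoves k M (others Y j) (total Y) Q := by
      rcases hMf with ⟨hk, hMf⟩ | h
      · exact wMoves_of_factorial hk hMf (isCompositum j) (dm_others hdim j)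
      · exact h
    have hdm : ∀ t : Finset ι, dm (part Y t) = ∑ i ∈ t, dm (Y i) := dm_part hdim
    have hcup : ({j}ᶜ : Finset ι) = s ∪ (insert j s)ᶜ := by
      ext i
      simp only [Finset.mem_compl, Finset.mem_singleton, Finset.mem_union, Finset.mem_insert]
      constructor
      · intro h
        by_cases h1 : i ∈ s
        · exact Or.inl h1
        · exact Or.inr (by tauto)
      · rintro (h | h)
        · rintro rfl
          exact hj h
        · tauto
    have hB : others Y j = part Y s ⊔ part Y (insert j s)ᶜ := by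
      rw [others_eq, hcup, part_union]
    have hdisj : Disjoint s (insert j s)ᶜ := by
      rw [Finset.disjoint_left]
      intro i hi hi'
      rw [Finset.mem_compl] at hi'
      exact hi' (Finset.mem_insert_of_mem hi)
    have hdimB : dm (others Y j) = dm (part Y s) + dm (part Y (insert j s)ᶜ) := by
      rw [others_eq, hdm, hdm, hdm, hcup, Finset.sum_union hdisj]
    have hdimG : dm (part Y (insert j s)) = dm (part Y s) + dm (Y j) := by
      rw [hdm, hdm, Finset.sum_insert hj, add_comm]
    have hdimZ : dm (total Y) = dm (others Y j) + dm (Y j) := (dm_others hdim j).symm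
    have hZ : total Y = others Y j ⊔ Y j := by rw [total_eq Y j, sup_comm]
    -- the complement
    have hC : kodairaDim k (part Y (insert j s)ᶜ) ≠ ⊥ := by
      have h1 : (insert j s)ᶜ = insert i₀ ((insert j s)ᶜ.erase i₀) := by
        rw [Finset.insert_erase]
        rw [Finset.mem_compl]
        exact hs
      rw [h1]
      exact kod_part_ne hdim hY (Finset.notMem_erase _ _)
    haveI : Fact (others Y j ≤ total Y) := ⟨others_le Y j⟩
    haveI : Fact (Y j ≤ total Y) := ⟨le_total Y j⟩
    have h1 : kd (others Y j) + kd (part Y (insert j s)) ≤ kd (part Y s) :=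
      rel_sub hB (part_insert j s) hZ hdimB hdimG hdimZ M (hY j) hC hmv
    rw [Finset.sum_insert hj]
    calc kd (others Y j) + ∑ i ∈ s, kd (others Y i) + kd (part Y (insert j s))
        = ∑ i ∈ s, kd (others Y i) + (kd (others Y j) + kd (part Y (insert j s))) := by
          rw [add_comm (kd (others Y j)), add_assoc]
      _ ≤ ∑ i ∈ s, kd (others Y i) + kd (part Y s) := add_le_add le_rfl h1
      _ ≤ _ := ih hs0

/-- **The lower bound for a product of varieties all but one of which have factorial charts.** -/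
theorem lower_fam [FiniteDimensional (total Y) Q] [IsGalois (total Y) Q]
    (hdim : ∑ i, dm (Y i) = dm (total Y))
    (hY : ∀ i, kodairaDim k (Y i) ≠ ⊥) (i₀ : ι)
    (hM : ∀ i, i ≠ i₀ → ∃ M : SmoothModel k (Y i),
      (Cardinal.aleph0 ≤ Algebra.trdeg ℚ k ∧ Fac.Factorial M) ∨
        WMoves k M (others Y i) (total Y) Q) :
    ∑ i, kodairaDim (others Y i) Q ≤ kodairaDim k Q ∧ 0 ≤ kodairaDim k Q := by
  have hbot : kd (⊥ : IntermediateField k Q) = kodairaDim k Q := by
    haveI : CharZero (⊥ : IntermediateField k Q) :=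
      charZero_of_injective_algebraMap (algebraMap k (⊥ : IntermediateField k Q)).injective
    exact Dq.kodairaDim_closure (B := k) (B' := (⊥ : IntermediateField k Q)) (P := Q)
  have h1 := lower_part hdim hY i₀ hM {i₀}ᶜ (by simp)
  rw [← others_eq, hbot] at h1
  refine ⟨?_, ?_⟩
  · have h2 : ∑ i, kd (others Y i) = ∑ i ∈ {i₀}ᶜ, kd (others Y i) + kd (others Y i₀) := by
      rw [← Finset.sum_compl_add_sum {i₀}, Finset.sum_singleton]
    change ∑ i, kd (others Y i) ≤ _
    rw [h2]
    exact h1
  · have h2 : kodairaDim k (total Y) ≠ ⊥ := by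
      have h3 := kod_part_ne hdim hY (Finset.notMem_erase i₀ Finset.univ)
      rw [Finset.insert_erase (Finset.mem_univ i₀), part_univ] at h3
      exact h3
    have h4 : KodairaGE k Q 0 := Can.kodairaGE_pull (L := Q) (PF.ge_zero h2)
    refine le_trans ?_ (le_iSup₂_of_le 0 h4 le_rfl)
    simp

omit [DecidableEq ι] in
/-- (I) for the factors, of which some are trivial, implies (I) -/
theorem iitaka_fam [Nonempty ι] {T : ι → IntermediateField k Q} [FiniteDimensional (total Y) Q]
    (hdim : ∑ i, dm (Y i) = dm (total Y))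
    (h : ∑ i, kodairaDim (others Y i) Q ≤ kodairaDim k Q) (hT : ∀ i, T i ≤ Y i)
    (hd : ∀ i, dimension k (T i) = 0 ∨ dimension k (T i) = dimension k (Y i) ∨
      kodairaDim (others Y i) (adj (others Y i) (T i)) +
        kodairaDim (adj (others Y i) (T i)) Q ≤ kodairaDim (others Y i) Q) :
    kodairaDim k (total T) + kodairaDim (total T) Q ≤ kodairaDim k Q := by
  refine iitaka_of hdim h hT fun i => ?_
  have h1 := dm_others_sup hdim hT i
  have h3 : dimension k (T i) = dimension k (Y i) →
      dm (others Y i ⊔ T i) = dimension k Q := fun h2 => by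
    change dm (T i) = dm (Y i) at h2
    rw [h1, h2, dm_others hdim i]
    exact (Twr.dimension_eq_of_algebraic (k := k) (K := total Y) (L := Q)).symm
  rcases hd i with h2 | h2 | h2
  · exact trivial_ineq h1 (Or.inl h2)
  · exact trivial_ineq h1 (Or.inr (h3 h2))
  · exact h2

end fam

end Pf72953.Rsp
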